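import Pool.Agent.V5helper38.BP.Pt

/-!
Adjoining a number `c` to `R`: if the graph of the multiplication by `c` is defined over `R`, or if
the kernel dimensions of the pencils over `R` at `c` are integers.
-/

set_option autoImplicit false
set_option linter.unusedSectionVars false

open scoped InnerProductSpace ENNReal ComplexConjugate
open Filter Topology

namespace Pool.Agent.V5helper38.BP

open Pool.Agent.W656.VA
open Pool.Agent.H80R2
open Pool.Agent.H80R2.BC (L2 GMat vdim IsTr LInv Equi act kerA Coef pt)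
open Pool.Agent.H812R3
open Pool.Agent.TH25.AD
open Pool.Agent.V5helper38.AA

section

variable {H : Type} [Group H] {R : Subring ℂ}

/-- the ring `R[c]` -/
noncomputable def adj (R : Subring ℂ) (c : ℂ) : Subring ℂ :=
  (Polynomial.eval₂RingHom R.subtype c).range

theorem le_adj (R : Subring ℂ) (c : ℂ) : R ≤ adj R c := by
  intro a ha
  exact ⟨Polynomial.C ⟨a, ha⟩, by simp⟩

theorem mem_adj (R : Subring ℂ) (c : ℂ) : c ∈ adj R c := ⟨Polynomial.X, by simp⟩

/-- a matrix over `R[z]` comes from a matrix over `R` -/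
theorem exists_ev {z : ℂ} {m n : ℕ} {A : GMat (Fin n) (Fin m) H} (hA : Coef (adj R z) A) :
    ∃ (D : ℕ) (B : GMat (Fin n) (Fin m × Fin (D + 1)) H), Coef R B ∧ ev (geo z D) B = A := by
  classical
  have h1 : ∀ (k : Fin n) (p : Fin m) (g : H), ∃ q : Polynomial R,
      q.eval₂ R.subtype z = A k p g ∧ (A k p g = 0 → q = 0) := by
    intro k p g
    by_cases h0 : A k p g = 0
    · exact ⟨0, by rw [h0, Polynomial.eval₂_zero], fun _ => rfl⟩
    · obtain ⟨q, hq⟩ := hA k p g
      exact ⟨q, hq, fun h => absurd h h0⟩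
  choose q hq1 hq2 using h1
  set D : ℕ := ∑ k, ∑ p, ∑ g ∈ (A k p).support, (q k p g).natDegree with hD
  have hdeg : ∀ k p g, (q k p g).natDegree < D + 1 := by
    intro k p g
    by_cases h0 : A k p g = 0
    · rw [hq2 k p g h0]
      simp
    · have h2 : g ∈ (A k p).support := Finsupp.mem_support_iff.2 h0
      have e1 := Finset.single_le_sum (f := fun g => (q k p g).natDegree)
        (fun _ _ => Nat.zero_le _) h2
      have e2 := Finset.single_le_sum
        (f := fun p => ∑ g ∈ (A k p).support, (q k p g).natDegree)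
        (fun _ _ => Nat.zero_le _) (Finset.mem_univ p)
      have e3 := Finset.single_le_sum
        (f := fun k => ∑ p, ∑ g ∈ (A k p).support, (q k p g).natDegree)
        (fun _ _ => Nat.zero_le _) (Finset.mem_univ k)
      exact Nat.lt_succ_of_le ((e1.trans e2).trans e3)
  let B : GMat (Fin n) (Fin m × Fin (D + 1)) H := fun k p =>
    Finsupp.onFinset (A k p.1).support (fun g => (((q k p.1 g).coeff p.2 : R) : ℂ)) (by
      intro g hg
      rw [Finsupp.mem_support_iff]
      intro h0
      apply hg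
      rw [hq2 k p.1 g h0]
      simp)
  refine ⟨D, B, ?_, ?_⟩
  · intro k p g
    exact ((q k p.1 g).coeff p.2).2
  · funext k p
    ext g
    unfold ev
    rw [Finsupp.finsetSum_apply, ← hq1 k p g, Polynomial.eval₂_eq_sum_range' _ (hdeg k p g),
      Finset.sum_range]
    refine Finset.sum_congr rfl fun i _ => ?_
    rw [Finsupp.smul_apply, smul_eq_mul, mul_comm]
    rfl

/-- a number which is defined over `R` can be adjoined to `R` -/
theorem int_adj_of_rp {c : ℂ} (hc : Rp R H c) (hI : IntR R H) : IntR (adj R c) H := by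
  rintro v ⟨m, n, A, hA, rfl⟩
  obtain ⟨D, B, hB, rfl⟩ := exists_ev hA
  rw [← fd_span B (geo_ne c D)]
  exact ((df_ker hB).inf (df_geo hc D)).int hI

/-- a number can be adjoined to `R` if all pencils over `R` have integral kernel dimensions at it -/
theorem int_adj_of_pencils {z : ℂ} (h : ∀ (ι κ : Type) [Fintype ι] [Fintype κ]
    (Q0 Q1 : GMat κ ι H), Coef R Q0 → Coef R Q1 → ∃ n : ℤ, kz Q0 Q1 z = n) :
    IntR (adj R z) H := by
  rintro v ⟨m, n, A, hA, rfl⟩
  obtain ⟨D, B, hB, rfl⟩ := exists_ev hA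
  obtain ⟨r, hr⟩ := h (Fin m × Fin (D + 1)) (Fin n ⊕ (Fin m × Fin D)) (cp0 B)
    (cp1 (Fin n) (Fin m) H D) (coef_cp0 hB) (coef_cp1 D)
  rw [kz_cp] at hr
  exact ⟨r, hr⟩

/-- the inverse of a number of `R` is defined over `R` -/
theorem rp_inv {c : ℂ} (hc : c ∈ R) (h0 : c ≠ 0) : Rp R H c⁻¹ := by
  classical
  let L : (Fin 2 → ℂ) →ₗ[ℂ] (Unit → ℂ) :=
    LinearMap.pi fun _ => LinearMap.proj 0 - c • LinearMap.proj 1
  have hL : ∀ φ, L φ = fun _ => φ 0 - c * φ 1 := fun φ => rfl
  have hk : LinearMap.ker L = Submodule.span ℂ {one_c c⁻¹} := by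
    ext φ
    rw [LinearMap.mem_ker, mem_span_one_c, hL]
    constructor
    · intro h
      have h1 : φ 0 - c * φ 1 = 0 := congrFun h ()
      have h2 : φ 0 = c * φ 1 := sub_eq_zero.1 h1
      rw [h2, inv_mul_cancel_left₀ h0]
    · intro h
      funext _
      show φ 0 - c * φ 1 = 0
      rw [h, mul_inv_cancel_left₀ h0, sub_self]
  unfold Rp
  rw [← hk, ← kerA_sc]
  apply df_ker
  apply coef_sc
  intro φ hφ n
  rw [hL]
  exact R.sub_mem (hφ 0) (R.mul_mem hc (hφ 1))

/-- a maximal ring with integral kernel dimensions -/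
theorem exists_max (h : IntR (⊥ : Subring ℂ) H) : ∃ R : Subring ℂ, IntR R H ∧
    ∀ R' : Subring ℂ, IntR R' H → R ≤ R' → R' = R := by
  classical
  obtain ⟨R, hR⟩ : ∃ R : Subring ℂ, Maximal (fun R => IntR R H) R := by
    apply zorn_le_nonempty₀ {R : Subring ℂ | IntR R H} ?_ (⊥ : Subring ℂ) h |>.imp
    · rintro R ⟨_, hR⟩
      exact hR
    · intro c hc hchain R0 hR0
      refine ⟨sSup c, ?_, fun R hR => le_sSup hR⟩
      have hdir : DirectedOn (· ≤ ·) c := hchain.directedOn
      rintro v ⟨m, n, A, hA, rfl⟩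
      have key : ∀ S : Finset ℂ, (∀ a ∈ S, a ∈ sSup c) → ∃ R ∈ c, ∀ a ∈ S, a ∈ R := by
        intro S
        induction S using Finset.induction_on with
        | empty => exact fun _ => ⟨R0, hR0, by simp⟩
        | insert a S _ ih =>
          intro hS
          obtain ⟨R1, hR1, h1⟩ := ih fun b hb => hS b (Finset.mem_insert_of_mem hb)
          obtain ⟨R2, hR2, h2⟩ := (Subring.mem_sSup_of_directedOn ⟨R0, hR0⟩ hdir).1
            (hS a (Finset.mem_insert_self _ _))
          obtain ⟨R3, hR3, h13, h23⟩ := hdir R1 hR1 R2 hR2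
          refine ⟨R3, hR3, fun b hb => ?_⟩
          rcases Finset.mem_insert.1 hb with rfl | hb
          · exact h23 h2
          · exact h13 (h1 b hb)
      obtain ⟨R1, hR1, h1⟩ := key (Finset.univ.biUnion fun k => Finset.univ.biUnion fun p =>
        (A k p).support.image (A k p)) (by
          intro a ha
          rw [Finset.mem_biUnion] at ha
          obtain ⟨k, _, ha⟩ := ha
          rw [Finset.mem_biUnion] at ha
          obtain ⟨p, _, ha⟩ := ha
          obtain ⟨g, _, rfl⟩ := Finset.mem_image.1 ha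
          exact hA k p g)
      refine hc hR1 _ ⟨m, n, A, ?_, rfl⟩
      intro k p g
      by_cases h0 : A k p g = 0
      · rw [h0]
        exact R1.zero_mem
      · apply h1
        rw [Finset.mem_biUnion]
        refine ⟨k, Finset.mem_univ _, ?_⟩
        rw [Finset.mem_biUnion]
        exact ⟨p, Finset.mem_univ _, Finset.mem_image.2 ⟨g, Finsupp.mem_support_iff.2 h0, rfl⟩⟩
  exact ⟨R, hR.1, fun R' hR' hle => le_antisymm (hR.2 hR' hle) hle⟩

end

end Pool.Agent.V5helper38.BP
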