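import Pool.Agent.V5helper38.AA.Alg2

/-!
Algebraic extensions of a field of coefficients, for a class of groups closed under products.
-/

set_option autoImplicit false
set_option linter.unusedSectionVars false

open scoped InnerProductSpace ENNReal ComplexConjugate
open Filter Topology

namespace Pool.Agent.V5helper38.BP

open Pool.Agent.W656.VA
open Pool.Agent.H80R2
open Pool.Agent.H80R2.BC (L2 GMat vdim IsTr LInv Equi act kerA Coef)
open Pool.Agent.H812R3
open Pool.Agent.TH25.AD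
open Pool.Agent.V5helper38.AA

section restr

variable {F K : Type} [Field F] [Field K] [Algebra F K] [Algebra F ℂ]
variable {ι κ J G : Type} [Group G] [Fintype ι] [Fintype κ] [Fintype J] [DecidableEq J]

/-- the matrix over `F[G]` of a matrix over `K[G]` -/
noncomputable def rsF (b : Module.Basis J F K) (B : KMat K κ ι G) : GMat (κ × J) (ι × J) G :=
  fun p q => (B p.1 q.1).mapRange
    (fun a => algebraMap F ℂ (Algebra.leftMulMatrix b a p.2 q.2)) (by simp)

theorem coef_rsF (b : Module.Basis J F K) (B : KMat K κ ι G) :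
    Coef (algebraMap F ℂ).range (rsF b B) := by
  intro p q h
  show ((B p.1 q.1).mapRange _ _) h ∈ _
  rw [Finsupp.mapRange_apply]
  exact ⟨_, rfl⟩

/-- the change of coordinates -/
noncomputable def LF (b : Module.Basis J F K) (e : J ≃ (K →ₐ[F] ℂ)) : (J → ℂ) →ₗ[ℂ] (J → ℂ) :=
  Matrix.mulVecLin (Matrix.of fun (j t : J) => e j (b t))

theorem LF_apply (b : Module.Basis J F K) (e : J ≃ (K →ₐ[F] ℂ)) (x : J → ℂ) (j : J) :
    LF b e x j = ∑ t, e j (b t) * x t := by
  unfold LF
  rw [Matrix.mulVecLin_apply]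
  rfl

theorem exists_invF [FiniteDimensional F K] [Algebra.IsSeparable F K] (b : Module.Basis J F K)
    (e : J ≃ (K →ₐ[F] ℂ)) :
    ∃ L : (J → ℂ) →ₗ[ℂ] (J → ℂ), (∀ x, L (LF b e x) = x) ∧ ∀ x, LF b e (L x) = x := by
  have h1 : Algebra.discr F (b : J → K) ≠ 0 := Algebra.discr_not_zero_of_basis F b
  have h2 := Algebra.discr_eq_det_embeddingsMatrixReindex_pow_two F ℂ (b : J → K) e
  set M : Matrix J J ℂ := Matrix.of fun (j t : J) => e j (b t) with hM
  have h3 : Algebra.embeddingsMatrixReindex F ℂ (b : J → K) e = M.transpose := by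
    ext i j
    simp [Algebra.embeddingsMatrixReindex, hM]
  have h4 : M.det ≠ 0 := by
    intro h0
    rw [h3, Matrix.det_transpose, h0] at h2
    have : (algebraMap F ℂ) (Algebra.discr F (b : J → K)) = 0 := by rw [h2]; simp
    exact h1 ((map_eq_zero _).1 this)
  have h5 : IsUnit M.det := isUnit_iff_ne_zero.2 h4
  refine ⟨Matrix.mulVecLin M⁻¹, fun x => ?_, fun x => ?_⟩
  · unfold LF
    rw [Matrix.mulVecLin_apply, Matrix.mulVecLin_apply, Matrix.mulVec_mulVec,
      Matrix.nonsing_inv_mul _ h5, Matrix.one_mulVec]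
  · unfold LF
    rw [Matrix.mulVecLin_apply, Matrix.mulVecLin_apply, Matrix.mulVec_mulVec,
      Matrix.mul_nonsing_inv _ h5, Matrix.one_mulVec]

theorem act_mpF {K' G' : Type} [Field K'] [Group G'] (σ : K' →+* ℂ) (B : KMat K' κ ι G')
    (x : ι × G' → ℂ) (k : κ) (g : G') :
    act (mp σ B) x k g = ∑ i, (B k i).sum (fun h c => σ c * x (i, g * h)) := by
  unfold act mp
  refine Finset.sum_congr rfl fun i _ => ?_
  rw [Finsupp.sum_mapRange_index]
  intro h
  rw [zero_mul]

theorem act_rsF (b : Module.Basis J F K) (B : KMat K κ ι G) (x : (ι × J) × G → ℂ) (k : κ) (s : J)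
    (g : G) :
    act (rsF b B) x (k, s) g = ∑ i, ∑ t, (B k i).sum
      (fun h c => algebraMap F ℂ (Algebra.leftMulMatrix b c s t) * x ((i, t), g * h)) := by
  unfold act rsF
  rw [Fintype.sum_prod_type]
  refine Finset.sum_congr rfl fun i _ => Finset.sum_congr rfl fun t _ => ?_
  rw [Finsupp.sum_mapRange_index]
  intro h
  rw [zero_mul]

theorem mul_basisF (b : Module.Basis J F K) (σ : K →ₐ[F] ℂ) (c : K) (t : J) :
    σ c * σ (b t) = ∑ s, σ (b s) * algebraMap F ℂ (Algebra.leftMulMatrix b c s t) := by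
  rw [← map_mul, ← b.sum_repr (c * b t), map_sum]
  refine Finset.sum_congr rfl fun s _ => ?_
  rw [map_smul, Algebra.leftMulMatrix_eq_repr_mul, Algebra.smul_def, mul_comm]

theorem act_changeF (b : Module.Basis J F K) (e : J ≃ (K →ₐ[F] ℂ)) (B : KMat K κ ι G)
    (x : L2 ((ι × J) × G)) (k : κ) (j : J) (g : G) :
    act (blk fun j => mp (e j : K →+* ℂ) B) (op (sc ι G (LF b e)) x) (k, j) g =
      LF b e (fun s => act (rsF b B) x (k, s) g) j := by
  rw [act_blk, act_mpF, LF_apply]
  have h1 : ∀ i h, cb j (op (sc ι G (LF b e)) x) (i, h) = ∑ t, e j (b t) * x ((i, t), h) := by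
    intro i h
    rw [cb_apply, op_sc, LF_apply]
  simp only [h1, act_rsF, Finsupp.sum, Finset.mul_sum]
  have h2 : ∀ i : ι, ∑ h ∈ (B k i).support, ∑ t, (e j : K →+* ℂ) ((B k i) h) *
      (e j (b t) * x ((i, t), g * h)) = ∑ s, ∑ t, ∑ h ∈ (B k i).support,
        e j (b s) * (algebraMap F ℂ (Algebra.leftMulMatrix b ((B k i) h) s t) *
          x ((i, t), g * h)) := by
    intro i
    have h3 : ∀ h t, (e j : K →+* ℂ) ((B k i) h) * (e j (b t) * x ((i, t), g * h)) =
        ∑ s, e j (b s) * (algebraMap F ℂ (Algebra.leftMulMatrix b ((B k i) h) s t) *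
          x ((i, t), g * h)) := by
      intro h t
      rw [← mul_assoc]
      have h4 : (e j : K →+* ℂ) ((B k i) h) * e j (b t) = _ := mul_basisF b (e j) ((B k i) h) t
      rw [h4, Finset.sum_mul]
      refine Finset.sum_congr rfl fun s _ => ?_
      ring
    simp only [h3]
    calc ∑ h ∈ (B k i).support, ∑ t, ∑ s, e j (b s) *
          (algebraMap F ℂ (Algebra.leftMulMatrix b ((B k i) h) s t) * x ((i, t), g * h))
        = ∑ h ∈ (B k i).support, ∑ s, ∑ t, e j (b s) *
          (algebraMap F ℂ (Algebra.leftMulMatrix b ((B k i) h) s t) * x ((i, t), g * h)) :=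
          Finset.sum_congr rfl fun h _ => Finset.sum_comm
      _ = ∑ s, ∑ h ∈ (B k i).support, ∑ t, e j (b s) *
          (algebraMap F ℂ (Algebra.leftMulMatrix b ((B k i) h) s t) * x ((i, t), g * h)) :=
          Finset.sum_comm
      _ = _ := Finset.sum_congr rfl fun s _ => Finset.sum_comm
  rw [Finset.sum_congr rfl fun i _ => h2 i, Finset.sum_comm]

/-- **Restriction of scalars.** -/
theorem vdim_rsF [FiniteDimensional F K] [Algebra.IsSeparable F K] (b : Module.Basis J F K)
    (e : J ≃ (K →ₐ[F] ℂ)) (B : KMat K κ ι G) :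
    vdim (kerA (rsF b B)) = ∑ j, vdim (kerA (mp (e j : K →+* ℂ) B)) := by
  rw [← vdim_blk]
  obtain ⟨L, hL1, hL2⟩ := exists_invF b e
  have hinj : ∀ {v : J → ℂ}, LF b e v = 0 → v = 0 := by
    intro v hv
    rw [← hL1 v, hv, map_zero]
  have hcomp1 : ∀ x : L2 ((ι × J) × G), op (sc ι G L) (op (sc ι G (LF b e)) x) = x := by
    intro x
    ext ⟨⟨i, j⟩, g⟩
    rw [op_sc]
    simp only [op_sc]
    exact congrFun (hL1 _) j
  have hcomp2 : ∀ x : L2 ((ι × J) × G), op (sc ι G (LF b e)) (op (sc ι G L) x) = x := by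
    intro x
    ext ⟨⟨i, j⟩, g⟩
    rw [op_sc]
    simp only [op_sc]
    exact congrFun (hL2 _) j
  have hker : ∀ x : L2 ((ι × J) × G), x ∈ kerA (rsF b B) ↔
      op (sc ι G (LF b e)) x ∈ kerA (blk fun j => mp (e j : K →+* ℂ) B) := by
    intro x
    constructor
    · rintro h ⟨k, j⟩ g
      rw [act_changeF]
      have : (fun s => act (rsF b B) x (k, s) g) = 0 := by
        funext s
        exact h (k, s) g
      rw [this, map_zero]
      rfl
    · rintro h ⟨k, s⟩ g
      have h1 : LF b e (fun s => act (rsF b B) x (k, s) g) = 0 := by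
        funext j
        rw [← act_changeF]
        exact h (k, j) g
      exact congrFun (hinj h1) s
  apply le_antisymm
  · refine vdim_inj_le (isClosed_kerA _) (linv_kerA _) (op (sc ι G (LF b e))) (equi_op _)
      (isClosed_kerA _) (fun x hx => (hker x).1 hx) ?_
    intro x _ h0
    rw [← hcomp1 x, h0, map_zero]
  · refine vdim_inj_le (isClosed_kerA _) (linv_kerA _) (op (sc ι G L)) (equi_op _)
      (isClosed_kerA _) (fun x hx => (hker _).2 (by rw [hcomp2]; exact hx)) ?_
    intro x _ h0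
    rw [← hcomp2 x, h0, map_zero]

end restr

/-- powers -/
theorem powers_F {C : (G : Type) → [Group G] → Prop}
    (hC : ∀ (G H : Type) [Group G] [Group H], C G → C H → C (G × H)) {K : Type} [Field K]
    {G : Type} [Group G] (hG : C G) {ι κ : Type} [Fintype ι] [Fintype κ] (B : KMat K κ ι G)
    (k : ℕ) :
    ∃ (H : Type) (_ : Group H) (ι' κ' : Type) (_ : Fintype ι') (_ : Fintype κ')
      (B' : KMat K κ' ι' H), C H ∧
        ∀ σ : K →+* ℂ, vdim (kerA (mp σ B')) = vdim (kerA (mp σ B)) ^ (k + 1) := by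
  induction k with
  | zero => exact ⟨G, inferInstance, ι, κ, inferInstance, inferInstance, B, hG, by simp⟩
  | succ k ih =>
    obtain ⟨H, _, ι', κ', _, _, B', hH, hB'⟩ := ih
    refine ⟨H × G, inferInstance, ι' × ι, (κ' × ι) ⊕ (ι' × κ), inferInstance, inferInstance,
      extKM B' B, hC H G hH hG, fun σ => ?_⟩
    rw [mp_ext, vdim_ext, hB', pow_succ _ (k + 1)]

/-- **Algebraic coefficients.** -/
theorem alg_intF {F : Type} [Field F] [Algebra F ℂ] {C : (G : Type) → [Group G] → Prop}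
    (hC : ∀ (G H : Type) [Group G] [Group H], C G → C H → C (G × H))
    (hQ : ∀ (G : Type) [Group G], C G → ∀ v : ℝ, Val (algebraMap F ℂ).range G v →
      ∃ z : ℤ, v = z) (R : Subring ℂ) (hR : ∀ c, c ∈ R ↔ IsAlgebraic F c) :
    ∀ (G : Type) [Group G], C G → ∀ v : ℝ, Val R G v → ∃ z : ℤ, v = z := by
  classical
  have hchar : CharZero F := (algebraMap F ℂ).charZero
  by_contra hno
  push Not at hno
  obtain ⟨G0, _, hG0, v0, ⟨m0, n0, A0, hA0, rfl⟩, hv0⟩ := hno
  let P : ℕ → Prop := fun m => ∃ (G : Type) (_ : Group G) (ι κ : Type) (_ : Fintype ι)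
    (_ : Fintype κ) (A : GMat κ ι G), C G ∧ Fintype.card ι = m ∧ Coef R A ∧
      ¬ ∃ z : ℤ, vdim (kerA A) = z
  have hP : ∃ m, P m := ⟨m0, G0, inferInstance, Fin m0, Fin n0, inferInstance, inferInstance, A0,
    hG0, Fintype.card_fin m0, hA0, by push Not; exact hv0⟩
  obtain ⟨G, _, ι, κ, _, _, A, hG, hcard, hA, hv⟩ := Nat.find_spec hP
  have hsmall : ∀ A' : GMat κ ι G, Coef R A' → (¬ ∃ z : ℤ, vdim (kerA A') = z) →
      0 < vdim (kerA A') ∧ vdim (kerA A') < 1 := by
    intro A' hA' hv'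
    obtain ⟨T, _, _, h3⟩ := min_col A' hA' (by
      intro ι' κ' _ _ A'' hlt hA''
      by_contra hcon
      rw [hcard] at hlt
      exact Nat.find_min hP hlt ⟨G, inferInstance, ι', κ', inferInstance, inferInstance, A'', hG,
        rfl, hA'', hcon⟩) hv'
    exact h3
  -- the field of the coefficients
  set S : Finset ℂ := Finset.univ.biUnion fun k : κ => Finset.univ.biUnion fun i : ι =>
    (A k i).support.image (A k i) with hS
  have hSalg : ∀ x ∈ (S : Set ℂ), IsIntegral F x := by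
    intro x hx
    rw [hS, Finset.mem_coe, Finset.mem_biUnion] at hx
    obtain ⟨k, _, hx⟩ := hx
    rw [Finset.mem_biUnion] at hx
    obtain ⟨i, _, hx⟩ := hx
    obtain ⟨g, _, rfl⟩ := Finset.mem_image.1 hx
    exact isAlgebraic_iff_isIntegral.1 ((hR _).1 (hA k i g))
  let K : IntermediateField F ℂ := IntermediateField.adjoin F (S : Set ℂ)
  have hfin : FiniteDimensional F K := IntermediateField.finiteDimensional_adjoin hSalg
  have hsep : Algebra.IsSeparable F K := inferInstance
  have hAK : ∀ k i g, A k i g ∈ K := by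
    intro k i g
    by_cases h0 : A k i g = 0
    · rw [h0]
      exact K.zero_mem
    · apply IntermediateField.subset_adjoin
      rw [hS, Finset.mem_coe, Finset.mem_biUnion]
      refine ⟨k, Finset.mem_univ _, ?_⟩
      rw [Finset.mem_biUnion]
      exact ⟨i, Finset.mem_univ _, Finset.mem_image.2 ⟨g, Finsupp.mem_support_iff.2 h0, rfl⟩⟩
  let f : ℂ → K := fun c => if h : c ∈ K then ⟨c, h⟩ else 0
  have hf0 : f 0 = 0 := by
    show (if h : (0 : ℂ) ∈ K then (⟨0, h⟩ : K) else 0) = 0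
    rw [dif_pos K.zero_mem]
    rfl
  let B : KMat K κ ι G := fun k i => (A k i).mapRange f hf0
  have hBA : mp (algebraMap K ℂ) B = A := by
    funext k i
    ext g
    show ((algebraMap K ℂ) (f (A k i g))) = A k i g
    have : f (A k i g) = ⟨A k i g, hAK k i g⟩ := dif_pos (hAK k i g)
    rw [this]
    rfl
  -- the embeddings
  let e : Fin (Module.finrank F K) ≃ (K →ₐ[F] ℂ) :=
    (Fintype.equivFinOfCardEq (AlgHom.card F K ℂ)).symm
  let b : Module.Basis (Fin (Module.finrank F K)) F K := Module.finBasis F K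
  have hcoef : ∀ σ : K →ₐ[F] ℂ, Coef R (mp (σ : K →+* ℂ) B) := by
    intro σ k i g
    rw [hR]
    show IsAlgebraic F (σ ((B k i) g))
    exact (Algebra.IsAlgebraic.isAlgebraic (R := F) ((B k i) g)).algHom σ
  let v : Fin (Module.finrank F K) → ℝ := fun j => vdim (kerA (mp (e j : K →+* ℂ) B))
  have h1 : ∀ j, (¬ ∃ z : ℤ, v j = z) → 0 < v j ∧ v j < 1 := fun j hj =>
    hsmall _ (hcoef (e j)) hj
  have h2 : ∀ k : ℕ, ∃ z : ℤ, ∑ j, v j ^ (k + 1) = z := by
    intro k
    obtain ⟨H, _, ι', κ', _, _, B', hH, hB'⟩ := powers_F hC hG B k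
    obtain ⟨z, hz⟩ := hQ H hH _ (val_of (rsF b B') (coef_rsF b B'))
    refine ⟨z, ?_⟩
    rw [← hz, vdim_rsF b e B']
    exact Finset.sum_congr rfl fun j _ => (hB' _).symm
  obtain ⟨z, hz⟩ := int_of_sums v h1 h2 (e.symm (IsScalarTower.toAlgHom F K ℂ))
  apply hv
  refine ⟨z, ?_⟩
  rw [← hz, ← hBA]
  show _ = vdim (kerA (mp (e (e.symm (IsScalarTower.toAlgHom F K ℂ)) : K →+* ℂ) B))
  rw [e.apply_symm_apply]
  rfl

end Pool.Agent.V5helper38.BP
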