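import Pool.Agent.V5helper38.AA.Alg
import Pool.Agent.W656.VB6

/-!
Subspaces of `ℓ²(ι × H)` which are defined by matrices over `R[H]`: images, coordinates, spaces of
vectors with values in a fixed space.
-/

set_option autoImplicit false
set_option linter.unusedSectionVars false

open scoped InnerProductSpace ENNReal ComplexConjugate
open Filter Topology

namespace Pool.Agent.V5helper38.BP

open Pool.Agent.W656.VA
open Pool.Agent.H80R2
open Pool.Agent.H80R2.BC (L2 GMat vdim IsTr LInv Equi act kerA Coef pt)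
open Pool.Agent.H812R3
open Pool.Agent.TH25.AD
open Pool.Agent.V5helper38.AA

section

variable {ι κ ν κ' H : Type} [Group H] [Fintype ι] [Fintype κ] [Fintype ν] [Fintype κ']

/-- `E` is defined over `R` -/
def DF (R : Subring ℂ) (E : Submodule ℂ (L2 (ι × H))) : Prop := ∃ d, Dfn R E d

/-- all kernel dimensions over `R[H]` are integers -/
def IntR (R : Subring ℂ) (H : Type) [Group H] : Prop :=
  ∀ v : ℝ, Val R H v → ∃ z : ℤ, v = z

theorem DF.int {R : Subring ℂ} {E : Submodule ℂ (L2 (ι × H))} (h : DF R E) (hI : IntR R H) :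
    ∃ z : ℤ, vdim E = z := by
  obtain ⟨d, h⟩ := h
  obtain ⟨z, hz⟩ := hI _ h.val
  obtain ⟨κ, ν, _, _, B, C, hB, hC, rfl, hE⟩ := h
  obtain ⟨z', hz'⟩ := hI _ (val_of C hC)
  refine ⟨z - z', ?_⟩
  push_cast
  linarith

theorem DF.inf {R : Subring ℂ} {E E' : Submodule ℂ (L2 (ι × H))} (h : DF R E) (h' : DF R E') :
    DF R (E ⊓ E') := by
  obtain ⟨d, h⟩ := h
  obtain ⟨d', h'⟩ := h'
  exact ⟨_, h.inf h'⟩

theorem DF.comap {R : Subring ℂ} {E : Submodule ℂ (L2 (κ × H))} (h : DF R E)
    {X : GMat κ ι H} (hX : Coef R X) :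
    DF R (E.comap (op X : L2 (ι × H) →ₗ[ℂ] L2 (κ × H))) := by
  obtain ⟨d, h⟩ := h
  exact ⟨_, h.comap hX⟩

theorem DF.closed {R : Subring ℂ} {E : Submodule ℂ (L2 (ι × H))} (h : DF R E) :
    IsClosed (E : Set (L2 (ι × H))) := by
  obtain ⟨d, κ, ν, _, _, B, C, hB, hC, rfl, hE⟩ := h
  have : E = pre B C := by
    ext x
    rw [hE, mem_pre]
  rw [this]
  exact closed_pre B C

theorem DF.linv {R : Subring ℂ} {E : Submodule ℂ (L2 (ι × H))} (h : DF R E) : LInv E := by
  obtain ⟨d, κ, ν, _, _, B, C, hB, hC, rfl, hE⟩ := h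
  have : E = pre B C := by
    ext x
    rw [hE, mem_pre]
  rw [this]
  exact linv_pre B C

theorem kerA_zero : kerA (fun _ _ => 0 : GMat κ ι H) = ⊤ := by
  rw [eq_top_iff]
  intro x _
  rw [kerA_eq, mem_kr, op_zero]

theorem clo_zero (y : L2 (κ × H)) : y ∈ clo (op (fun _ _ => 0 : GMat κ ι H)) ↔ y = 0 := by
  constructor
  · intro h
    have h1 : clo (op (fun _ _ => 0 : GMat κ ι H)) ≤ ⊥ := by
      refine clo_le ?_ fun x => ?_
      · rw [Submodule.bot_coe]
        exact isClosed_singleton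
      · rw [op_zero]
        exact Submodule.zero_mem _
    exact (Submodule.mem_bot ℂ).1 (h1 h)
  · rintro rfl
    exact Submodule.zero_mem _

/-- kernels -/
theorem df_ker {R : Subring ℂ} {A : GMat κ ι H} (hA : Coef R A) : DF R (kerA A) := by
  refine ⟨_, κ, Unit, inferInstance, inferInstance, A, fun _ _ => 0, hA,
    fun _ _ _ => R.zero_mem, rfl, fun x => ?_⟩
  rw [clo_zero, kerA_eq, mem_kr]

theorem df_top {R : Subring ℂ} : DF R (⊤ : Submodule ℂ (L2 (ι × H))) := by
  have h := df_ker (R := R) (A := (fun _ _ => 0 : GMat Unit ι H)) (fun _ _ _ => R.zero_mem)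
  rwa [kerA_zero] at h

theorem df_finset {R : Subring ℂ} {σ : Type} (s : Finset σ) (E : σ → Submodule ℂ (L2 (ι × H)))
    (h : ∀ i ∈ s, DF R (E i)) : DF R (⨅ i ∈ s, E i) := by
  classical
  induction s using Finset.induction_on with
  | empty => simpa using df_top
  | insert a s _ ih =>
    rw [Finset.iInf_insert]
    exact (h a (Finset.mem_insert_self _ _)).inf
      (ih fun i hi => h i (Finset.mem_insert_of_mem hi))

open Classical in
/-- the identity matrix -/
noncomputable def idG (κ H : Type) [Group H] : GMat κ κ H :=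
  fun a b => if a = b then Finsupp.single 1 1 else 0

theorem op_idG (x : L2 (κ × H)) : op (idG κ H) x = x := by
  classical
  ext ⟨k, g⟩
  rw [op_apply]
  unfold act idG
  rw [Finset.sum_eq_single k]
  · rw [if_pos rfl, Finsupp.sum_single_index (by simp), one_mul, mul_one]
  · intro j _ hj
    rw [if_neg (fun h => hj h.symm)]
    simp
  · intro h
    exact absurd (Finset.mem_univ _) h

theorem coef_idG (R : Subring ℂ) : Coef R (idG κ H) := by
  classical
  intro k i g
  unfold idG
  split_ifs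
  · exact coef_single _ _ R.one_mem _
  · exact R.zero_mem

theorem mem_clo_stack0 (C : GMat κ ν H) (y : L2 ((κ' ⊕ κ) × H)) :
    y ∈ clo (op (BC.stack (fun _ _ => 0 : GMat κ' ν H) C)) ↔
      pl1 κ' κ H y = 0 ∧ pl2 κ' κ H y ∈ clo (op C) := by
  constructor
  · intro hy
    constructor
    · have h1 := map_clo (K := (⊥ : Submodule ℂ (L2 (κ' × H)))) (by
        rw [Submodule.bot_coe]
        exact isClosed_singleton) (pl1 κ' κ H) (fun x => by
          rw [pl1_stack, op_zero]
          exact Submodule.zero_mem _) hy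
      exact (Submodule.mem_bot ℂ).1 h1
    · refine map_clo (closed_clo _) (pl2 κ' κ H) (fun x => ?_) hy
      rw [pl2_stack]
      exact mem_clo _ _
  · rintro ⟨h1, h2⟩
    have e : y = in2 κ' κ H (pl2 κ' κ H y) := by
      apply ext_pl
      · rw [pl1_in2, h1]
      · rw [pl2_in2]
    rw [e]
    refine map_clo (closed_clo _) (in2 κ' κ H) (fun x => ?_) h2
    have e1 : in2 κ' κ H (op C x) = op (BC.stack (fun _ _ => 0 : GMat κ' ν H) C) x := by
      apply ext_pl
      · rw [pl1_in2, pl1_stack, op_zero]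
      · rw [pl2_in2, pl2_stack]
    rw [e1]
    exact mem_clo _ _

/-- images -/
theorem DF.image {R : Subring ℂ} {E : Submodule ℂ (L2 (ι × H))} (h : DF R E)
    {X : GMat κ' ι H} (hX : Coef R X) :
    DF R (E.map (op X : L2 (ι × H) →ₗ[ℂ] L2 (κ' × H))).topologicalClosure := by
  have hEc := h.closed
  have hEi := h.linv
  obtain ⟨d, κ, ν, _, _, B, C, hB, hC, rfl, hE⟩ := h
  have hEp : E = pre B C := by
    ext x
    rw [hE, mem_pre]
  set C2 : GMat (κ' ⊕ κ) ν H := BC.stack (fun _ _ => 0) C with hC2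
  set B2 : GMat (κ' ⊕ κ) ι H := BC.stack X B with hB2
  set M : GMat (κ' ⊕ κ) (ι ⊕ ν) H := sd B2 C2 with hM
  set B1 : GMat (κ' ⊕ κ) κ' H := BC.stack (idG κ' H) (fun _ _ => 0) with hB1
  have hkC : vdim (kerA C2) = vdim (kerA C) := by
    rw [hC2, kerA_stack, kerA_zero, top_inf_eq]
  have hpre2 : pre B2 C2 = E ⊓ kr (op X) := by
    ext x
    rw [mem_pre, hC2, mem_clo_stack0, Submodule.mem_inf, mem_kr, hE, hB2, pl1_stack, pl2_stack,
      and_comm]
  have hkM : vdim (kerA M) = vdim (E ⊓ kr (op X)) + vdim (kerA C) := by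
    rw [hM, vdim_sd, hpre2, hkC]
  have hrank := vdim_rank hEc hEi (op X) (equi_op X)
  -- the easy inclusion
  have h1 : (E.map (op X : L2 (ι × H) →ₗ[ℂ] L2 (κ' × H))).topologicalClosure ≤ pre B1 M := by
    apply Submodule.topologicalClosure_minimal _ _ (closed_pre B1 M)
    rintro _ ⟨x, hx, rfl⟩
    rw [mem_pre]
    have hx' : op B x ∈ clo (op C) := (hE x).1 hx
    have e : op B1 (op X x) = op M (in1 ι ν H x) - in2 κ' κ H (op B x) := by
      rw [hM, op_sd, pl1_in1, pl2_in1, map_zero, sub_zero]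
      apply ext_pl
      · rw [map_sub, hB1, hB2, pl1_stack, pl1_stack, op_idG, pl1_in2, sub_zero]
      · rw [map_sub, hB1, hB2, pl2_stack, pl2_stack, op_zero, pl2_in2, sub_self]
    show op B1 (op X x) ∈ clo (op M)
    rw [e]
    apply Submodule.sub_mem _ (mem_clo _ _)
    refine map_clo (closed_clo _) (in2 κ' κ H) (fun w => ?_) hx'
    have e2 : in2 κ' κ H (op C w) = op M (in2 ι ν H (-w)) := by
      rw [hM, op_sd, pl1_in2, pl2_in2, map_zero, map_neg, zero_sub, neg_neg]
      apply ext_pl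
      · rw [pl1_in2, hC2, pl1_stack, op_zero]
      · rw [pl2_in2, hC2, pl2_stack]
    rw [e2]
    exact mem_clo _ _
  -- the dimension
  have h2 : vdim (kerA (sd B1 M)) ≤ vdim E + vdim (kerA C) := by
    have h3 : vdim (kerA (sd B C)) = vdim E + vdim (kerA C) := by
      rw [vdim_sd, ← hEp]
    rw [← h3]
    have key : ∀ x ∈ kerA (sd B1 M), pl1 κ' (ι ⊕ ν) H x = op X (pl1 ι ν H (pl2 κ' (ι ⊕ ν) H x)) ∧
        op (sd B C) (pl2 κ' (ι ⊕ ν) H x) = 0 := by
      intro x hx
      rw [kerA_eq, mem_kr, op_sd, sub_eq_zero, hM, op_sd] at hx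
      constructor
      · have := congrArg (pl1 κ' κ H) hx
        rw [hB1, pl1_stack, op_idG, map_sub, hB2, pl1_stack, hC2, pl1_stack, op_zero,
          sub_zero] at this
        exact this
      · have := congrArg (pl2 κ' κ H) hx
        rw [hB1, pl2_stack, op_zero, map_sub, hB2, pl2_stack, hC2, pl2_stack] at this
        rw [op_sd]
        exact this.symm
    refine vdim_inj_le (isClosed_kerA _) (linv_kerA _) (pl2 κ' (ι ⊕ ν) H) equi_pl2
      (isClosed_kerA (sd B C)) ?_ ?_
    · intro x hx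
      rw [kerA_eq, mem_kr]
      exact (key x hx).2
    · intro x hx h0
      apply ext_pl
      · rw [(key x hx).1, h0, map_zero, map_zero, map_zero]
      · rw [h0, map_zero]
  rw [vdim_sd, hkM] at h2
  have hli : LInv (E.map (op X : L2 (ι × H) →ₗ[ℂ] L2 (κ' × H))).topologicalClosure :=
    linv_closure (linv_map (equi_op X) hEi)
  have h4 := eq_of_vdim (Submodule.isClosed_topologicalClosure _) hli (closed_pre B1 M)
    (linv_pre B1 M) h1 (by linarith)
  refine ⟨_, κ' ⊕ κ, ι ⊕ ν, inferInstance, inferInstance, B1, M, ?_, ?_, rfl, ?_⟩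
  · apply coef_stack (coef_idG R)
    intro k i g
    exact R.zero_mem
  · refine coef_sd (coef_stack hX hB) (coef_stack ?_ hC)
    intro k i g
    exact R.zero_mem
  · intro x
    rw [h4, mem_pre]

end

end Pool.Agent.V5helper38.BP
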