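import Pool.Agent.V5helper38.BP.Max

/-!
The direct sum of countably many copies of `G`; base change and gap for a class of groups which is
closed under squares.
-/

set_option autoImplicit false
set_option linter.unusedSectionVars false

open scoped InnerProductSpace ENNReal ComplexConjugate
open Topology

namespace Pool.Agent.V5helper38.BP

open Pool.Agent.W656.VA
open Pool.Agent.H80R2
open Pool.Agent.H80R2.BC (L2 GMat vdim IsTr LInv Equi act kerA Coef pt)
open Pool.Agent.H812R3
open Pool.Agent.TH25.AD
open Pool.Agent.V5helper38.AA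
open Pool.Agent.V5helper38.AA.Kl (FS mem_FS)

/-- finitely generated subgroups of the direct sum embed into finite powers -/
theorem fs_fg {G : Type} [Group G] (K : Subgroup (FS G)) (hK : K.FG) :
    ∃ (n : ℕ) (f : K →* (Fin n → G)), Function.Injective f := by
  classical
  obtain ⟨S, hS⟩ := hK
  have hfin : ∀ x : FS G, {i : ℤ | (x : ℤ → G) i ≠ 1}.Finite := fun x => x.2
  set U : Finset ℤ := S.biUnion fun x => (hfin x).toFinset with hU
  have hK : ∀ x ∈ K, ∀ i, i ∉ U → (x : ℤ → G) i = 1 := by
    intro x hx
    rw [← hS] at hx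
    refine Subgroup.closure_induction (p := fun (x : FS G) _ => ∀ i, i ∉ U → (x : ℤ → G) i = 1)
      ?_ ?_ ?_ ?_ hx
    · intro y hy i hi
      by_contra hcon
      apply hi
      rw [hU, Finset.mem_biUnion]
      exact ⟨y, Finset.mem_coe.1 hy, (Set.Finite.mem_toFinset _).2 hcon⟩
    · intro i _
      rfl
    · intro y z _ _ hy hz i hi
      rw [Subgroup.coe_mul, Pi.mul_apply, hy i hi, hz i hi, one_mul]
    · intro y _ hy i hi
      rw [Subgroup.coe_inv, Pi.inv_apply, hy i hi, inv_one]
  let e := U.equivFin
  refine ⟨U.card,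
    { toFun := fun x j => ((x : FS G) : ℤ → G) (e.symm j : ℤ)
      map_one' := rfl
      map_mul' := fun _ _ => rfl }, ?_⟩
  intro x y hxy
  apply Subtype.ext
  apply Subtype.ext
  funext i
  by_cases hi : i ∈ U
  · have := congrFun hxy (e ⟨i, hi⟩)
    simpa using this
  · rw [hK x x.2 i hi, hK y y.2 i hi]

/-- a bijection -/
noncomputable def eN : ℤ ≃ ℕ × ℤ := (Denumerable.eqv ℤ).trans (Denumerable.eqv (ℕ × ℤ)).symm

section

variable (G : Type) [Group G]

/-- the slot `s` of a finitely supported function -/
noncomputable def slot (s : ℕ) : FS G →* FS G where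
  toFun f := ⟨fun n => if (eN n).1 = s then (f : ℤ → G) (eN n).2 else 1, by
    rw [mem_FS]
    have h1 : {i : ℤ | (f : ℤ → G) i ≠ 1}.Finite := f.2
    refine (h1.image fun m => eN.symm (s, m)).subset ?_
    intro n hn
    by_cases h2 : (eN n).1 = s
    · refine ⟨(eN n).2, ?_, ?_⟩
      · intro h3
        apply hn
        show (if (eN n).1 = s then (f : ℤ → G) (eN n).2 else 1) = 1
        rw [if_pos h2, h3]
      · show eN.symm (s, (eN n).2) = n
        rw [← h2, Prod.mk.eta, Equiv.symm_apply_apply]
    · exfalso
      apply hn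
      show (if (eN n).1 = s then (f : ℤ → G) (eN n).2 else 1) = 1
      rw [if_neg h2]⟩
  map_one' := by
    apply Subtype.ext
    funext n
    show (if (eN n).1 = s then (1 : G) else 1) = 1
    rw [ite_self]
  map_mul' f g := by
    apply Subtype.ext
    funext n
    show (if (eN n).1 = s then (f : ℤ → G) (eN n).2 * (g : ℤ → G) (eN n).2 else 1) =
      (if (eN n).1 = s then (f : ℤ → G) (eN n).2 else 1) *
        (if (eN n).1 = s then (g : ℤ → G) (eN n).2 else 1)
    split_ifs
    · rfl
    · rw [one_mul]

variable {G}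

theorem slot_apply (s : ℕ) (f : FS G) (n : ℤ) :
    (slot G s f : ℤ → G) n = if (eN n).1 = s then (f : ℤ → G) (eN n).2 else 1 := rfl

theorem slot_self (s : ℕ) (f : FS G) (m : ℤ) :
    (slot G s f : ℤ → G) (eN.symm (s, m)) = (f : ℤ → G) m := by
  rw [slot_apply, Equiv.apply_symm_apply, if_pos rfl]

theorem slot_ne {s t : ℕ} (h : t ≠ s) (f : FS G) (m : ℤ) :
    (slot G s f : ℤ → G) (eN.symm (t, m)) = 1 := by
  rw [slot_apply, Equiv.apply_symm_apply, if_neg h]

variable (G)

/-- the slots of the direct sum -/
noncomputable def fsSlots : Slots (FS G) where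
  φ := slot G
  inj s f g h := by
    apply Subtype.ext
    funext m
    rw [← slot_self s f m, h, slot_self]
  D I :=
    { carrier := {f | ∀ n : ℤ, (eN n).1 ∉ I → (f : ℤ → G) n = 1}
      one_mem' := fun _ _ => rfl
      mul_mem' := by
        intro f g hf hg n hn
        rw [Subgroup.coe_mul, Pi.mul_apply, hf n hn, hg n hn, one_mul]
      inv_mem' := by
        intro f hf n hn
        rw [Subgroup.coe_inv, Pi.inv_apply, hf n hn, inv_one] }
  mono h f hf n hn := hf n fun h' => hn (h h')
  mem s f n hn := by
    rw [slot_apply, if_neg]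
    exact hn
  comm := by
    intro I J hd f hf g hg
    apply Subtype.ext
    funext n
    rw [Subgroup.coe_mul, Subgroup.coe_mul, Pi.mul_apply, Pi.mul_apply]
    by_cases h1 : (eN n).1 ∈ I
    · rw [hg n (Set.disjoint_left.1 hd h1), one_mul, mul_one]
    · rw [hf n h1, one_mul, mul_one]
  triv := by
    intro I J hd f hf hg
    apply Subtype.ext
    funext n
    by_cases h1 : (eN n).1 ∈ I
    · rw [hg n (Set.disjoint_left.1 hd h1)]
      rfl
    · rw [hf n h1]
      rfl

/-- the direct sum contains its square -/
theorem fs_sq : ∃ f : FS G × FS G →* FS G, Function.Injective f := by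
  refine ⟨{ toFun := fun p => slot G 0 p.1 * slot G 1 p.2
            map_one' := by
              show slot G 0 1 * slot G 1 1 = 1
              rw [map_one, map_one, mul_one]
            map_mul' := ?_ }, ?_⟩
  · intro p q
    show slot G 0 (p.1 * q.1) * slot G 1 (p.2 * q.2) =
      slot G 0 p.1 * slot G 1 p.2 * (slot G 0 q.1 * slot G 1 q.2)
    have h1 : slot G 1 p.2 * slot G 0 q.1 = slot G 0 q.1 * slot G 1 p.2 :=
      (fsSlots G).comm (I := {1}) (J := {0}) (by simp) _ ((fsSlots G).mem 1 p.2) _
        ((fsSlots G).mem 0 q.1)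
    rw [map_mul, map_mul, mul_assoc, mul_assoc, ← mul_assoc (slot G 1 p.2), h1, mul_assoc]
  · rintro ⟨f, g⟩ ⟨f', g'⟩ h
    have h' : slot G 0 f * slot G 1 g = slot G 0 f' * slot G 1 g' := h
    have h1 : ∀ n, (slot G 0 f : ℤ → G) n * (slot G 1 g : ℤ → G) n =
        (slot G 0 f' : ℤ → G) n * (slot G 1 g' : ℤ → G) n := fun n =>
      congrFun (congrArg (Subtype.val : FS G → ℤ → G) h') n
    refine Prod.ext (Subtype.ext (funext fun m => ?_)) (Subtype.ext (funext fun m => ?_))
    · have h2 := h1 (eN.symm (0, m))
      rw [slot_self, slot_self, slot_ne zero_ne_one, slot_ne zero_ne_one, mul_one, mul_one] at h2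
      exact h2
    · have h2 := h1 (eN.symm (1, m))
      rw [slot_self, slot_self, slot_ne one_ne_zero, slot_ne one_ne_zero, one_mul, one_mul] at h2
      exact h2

/-- `G` embeds into the direct sum -/
theorem fs_incl : ∃ f : G →* FS G, Function.Injective f := by
  classical
  refine ⟨{ toFun := fun g => ⟨fun n => if n = 0 then g else 1, ?_⟩
            map_one' := ?_
            map_mul' := ?_ }, ?_⟩
  · rw [mem_FS]
    refine (Set.finite_singleton (0 : ℤ)).subset ?_
    intro n hn
    by_contra hcon
    apply hn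
    have hcon' : n ≠ 0 := hcon
    show (if n = 0 then g else 1) = 1
    rw [if_neg hcon']
  · apply Subtype.ext
    funext n
    show (if n = 0 then (1 : G) else 1) = 1
    rw [ite_self]
  · intro a b
    apply Subtype.ext
    funext n
    show (if n = 0 then a * b else 1) = (if n = 0 then a else 1) * (if n = 0 then b else 1)
    split_ifs
    · rfl
    · rw [one_mul]
  · intro a b h
    have h1 := congrFun (congrArg (Subtype.val : FS G → ℤ → G) h) 0
    exact h1

end

/-- finite powers embed into groups of a class closed under squares -/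
theorem pow_emb {C : (G : Type) → [Group G] → Prop}
    (hC : ∀ (G : Type) [Group G], C G → C (G × G)) {G : Type} [Group G] (hG : C G) (n : ℕ) :
    ∃ (H : Type) (_ : Group H) (e : G →* H) (f : (Fin n → G) →* H), C H ∧
      Function.Injective e ∧ Function.Injective f := by
  induction n with
  | zero =>
    refine ⟨G, inferInstance, MonoidHom.id G, 1, hG, fun _ _ h => h, ?_⟩
    intro a b _
    exact Subsingleton.elim _ _
  | succ n ih =>
    obtain ⟨H, _, e, f, hH, he, hf⟩ := ih
    refine ⟨H × H, inferInstance, (MonoidHom.inl H H).comp e,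
      { toFun := fun a => (e (a 0), f fun i => a i.succ)
        map_one' := by
          refine Prod.ext ?_ ?_
          · exact map_one e
          · exact map_one f
        map_mul' := by
          intro a b
          refine Prod.ext ?_ ?_
          · exact map_mul e _ _
          · exact map_mul f _ _ }, hC H hH, ?_, ?_⟩
    · intro a b hab
      exact he (congrArg Prod.fst hab)
    · intro a b hab
      have h1 : a 0 = b 0 := he (congrArg Prod.fst hab)
      have h2 : (fun i : Fin n => a i.succ) = fun i : Fin n => b i.succ :=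
        hf (congrArg Prod.snd hab)
      funext i
      refine Fin.cases h1 (fun j => ?_) i
      exact congrFun h2 j

/-- the kernel dimensions over the direct sum are those over the finite powers -/
theorem val_fs {C : (G : Type) → [Group G] → Prop}
    (hC : ∀ (G : Type) [Group G], C G → C (G × G)) {G : Type} [Group G]
    (hG : C G) {R : Subring ℂ} {v : ℝ} (hv : Val R (FS G) v) :
    ∃ (H : Type) (_ : Group H), C H ∧ Val R H v := by
  obtain ⟨K, hK, hKv⟩ := fg_val_sub hv
  obtain ⟨n, f, hf⟩ := fs_fg K ((Group.fg_iff_subgroup_fg K).1 hK)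
  obtain ⟨H, _, _, e, hH, _, he⟩ := pow_emb hC hG n
  exact ⟨H, inferInstance, hH, val_incl e he (val_incl f hf hKv)⟩

theorem Val.mono {R R' : Subring ℂ} (h : R ≤ R') {G : Type} [Group G] {v : ℝ} (hv : Val R G v) :
    Val R' G v := by
  obtain ⟨m, n, A, hA, rfl⟩ := hv
  exact ⟨m, n, A, fun k i g => h (hA k i g), rfl⟩

/-- **Base change** for a class of groups which is closed under squares. -/
theorem base_change_prod {C : (G : Type) → [Group G] → Prop}
    (hC : ∀ (G : Type) [Group G], C G → C (G × G)) {R : Subring ℂ}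
    (h : ∀ (G : Type) [Group G], C G → IntR R G) (R' : Subring ℂ) :
    ∀ (G : Type) [Group G], C G → IntR R' G := by
  intro G _ hG
  have h1 : IntR (⊥ : Subring ℂ) (FS G) := by
    intro v hv
    obtain ⟨H, _, hH, hHv⟩ := val_fs hC hG hv
    exact h H hH v (Val.mono bot_le hHv)
  obtain ⟨e, he⟩ := fs_sq G
  have h2 := base_change_slots (fsSlots G) e he h1 R'
  intro v hv
  obtain ⟨f, hf⟩ := fs_incl G
  exact h2 v (val_incl f hf hv)

/-- **Gap** for a class of groups which is closed under squares. -/
theorem gap_prod {C : (G : Type) → [Group G] → Prop}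
    (hC : ∀ (G : Type) [Group G], C G → C (G × G)) {R : Subring ℂ} (a b : ℝ)
    (ha : 0 ≤ a) (hab : a < b)
    (h : ∀ (G : Type) [Group G], C G → ∀ v : ℝ, Val R G v → ¬ (a < v ∧ v < b)) :
    ∀ (G : Type) [Group G], C G → IntR R G := by
  intro G _ hG v hv
  by_contra hcon
  obtain ⟨f, hf⟩ := fs_incl G
  obtain ⟨w, h1, h2, hw⟩ := dense_values (fs_sq G) ⟨v, val_incl f hf hv, hcon⟩ a b ha hab
  obtain ⟨H, _, hH, hHw⟩ := val_fs hC hG hw
  exact h H hH w hHw ⟨h1, h2⟩

end Pool.Agent.V5helper38.BP
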