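import Pool.Agent.V5helper38.BP.Adj

/-!
Subspaces of `ℓ²(ι × H)` which are local to a subgroup; a subspace which is local to two subgroups
with trivial intersection is given by a pointwise condition.
-/

set_option autoImplicit false
set_option linter.unusedSectionVars false

open scoped InnerProductSpace ENNReal ComplexConjugate
open Topology

namespace Pool.Agent.V5helper38.BP

open Pool.Agent.W656.VA
open Pool.Agent.H80R2
open Pool.Agent.H80R2.BC (L2 GMat vdim IsTr LInv Equi act kerA Coef pt)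
open Pool.Agent.H812R3
open Pool.Agent.TH25.AD
open Pool.Agent.V5helper38.AA

section

variable {ι κ μ ν H : Type} [Group H] [Fintype ι] [Fintype κ] [Fintype μ] [Fintype ν]

/-- apply an operator to all components -/
noncomputable def cw (ι : Type) [Fintype ι] (X : L2 (Unit × H) →L[ℂ] L2 (Unit × H)) :
    L2 (ι × H) →L[ℂ] L2 (ι × H) := ∑ i, (el i () 1).comp (X.comp (cj i))

theorem cw_apply (X : L2 (Unit × H) →L[ℂ] L2 (Unit × H)) (x : L2 (ι × H)) :
    cw ι X x = mk fun i => X (cj i x) := by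
  unfold cw TH25.AD.mk
  rw [ContinuousLinearMap.sum_apply]
  rfl

theorem cj_cw (X : L2 (Unit × H) →L[ℂ] L2 (Unit × H)) (x : L2 (ι × H)) (i : ι) :
    cj i (cw ι X x) = X (cj i x) := by
  rw [cw_apply, cj_mk]

/-- locality -/
def LocM (D : Subgroup H) (E : Submodule ℂ (L2 (ι × H))) : Prop :=
  ∀ X : L2 (Unit × H) →L[ℂ] L2 (Unit × H), (∀ d ∈ D, ∀ x, X (U d x) = U d (X x)) →
    ∀ x ∈ E, cw ι X x ∈ E

theorem LocM.mono {D D' : Subgroup H} (h : D ≤ D') {E : Submodule ℂ (L2 (ι × H))}
    (hE : LocM D E) : LocM D' E := fun X hX x hx => hE X (fun d hd => hX d (h hd)) x hx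

theorem LocM.inf {D : Subgroup H} {E E' : Submodule ℂ (L2 (ι × H))}
    (hE : LocM D E) (hE' : LocM D E') : LocM D (E ⊓ E') :=
  fun X hX x hx => ⟨hE X hX x hx.1, hE' X hX x hx.2⟩

theorem locM_finset {σ : Type} {D : Subgroup H} (s : Finset σ) (E : σ → Submodule ℂ (L2 (ι × H)))
    (h : ∀ i ∈ s, LocM D (E i)) : LocM D (⨅ i ∈ s, E i) := by
  intro X hX x hx
  rw [Submodule.mem_iInf] at hx ⊢
  intro i
  have h1 := hx i
  rw [Submodule.mem_iInf] at h1 ⊢
  intro hi
  exact h i hi X hX x (h1 hi)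

theorem locM_image (D : Subgroup H) {A : GMat κ ι H} {T : GMat ν ι H}
    (hA : ∀ k i, ∀ h ∈ (A k i).support, h ∈ D) (hT : ∀ k i, ∀ h ∈ (T k i).support, h ∈ D) :
    LocM D ((kerA A).map (op T : L2 (ι × H) →ₗ[ℂ] L2 (ν × H))).topologicalClosure := by
  intro X hX x hx
  have h1 : ((kerA A).map (op T : L2 (ι × H) →ₗ[ℂ] L2 (ν × H))).topologicalClosure ≤
      (((kerA A).map (op T : L2 (ι × H) →ₗ[ℂ] L2 (ν × H))).topologicalClosure).comap
        (cw ν X : L2 (ν × H) →ₗ[ℂ] L2 (ν × H)) := by
    apply Submodule.topologicalClosure_minimal _ _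
      ((Submodule.isClosed_topologicalClosure _).preimage (cw ν X).continuous)
    rintro _ ⟨s, hs, rfl⟩
    have hs' : s ∈ kerA A := hs
    rw [kerA_eq, mem_kr] at hs'
    have e : cw ν X (op T s) = op T (mk fun i => X (cj i s)) := by
      apply ext_cj
      intro k
      rw [cj_op_amp D T hT X hX, cj_cw]
    rw [Submodule.mem_comap]
    apply Submodule.le_topologicalClosure
    refine ⟨mk fun i => X (cj i s), ?_, e.symm⟩
    show (mk fun i => X (cj i s)) ∈ kerA A
    rw [kerA_eq, mem_kr]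
    apply ext_cj
    intro k
    rw [cj_op_amp D A hA X hX, hs', map_zero, map_zero]
  exact h1 hx

/-- the vector `δ_h ⊗ φ` -/
noncomputable def put (h : H) (φ : μ → ℂ) : L2 ((Unit × μ) × H) := ∑ i, φ i • de (((), i), h)

theorem put_apply_self (h : H) (φ : μ → ℂ) (i : μ) : put h φ (((), i), h) = φ i := by
  classical
  unfold put
  rw [lp.coeFn_sum, Finset.sum_apply, Finset.sum_eq_single i]
  · rw [lp.coeFn_smul, Pi.smul_apply, de_apply_self, smul_eq_mul, mul_one]
  · intro j _ hj
    rw [lp.coeFn_smul, Pi.smul_apply, de_apply_ne, smul_zero]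
    simp only [ne_eq, Prod.mk.injEq, true_and, and_true]
    exact fun h => hj h.symm
  · intro h
    exact absurd (Finset.mem_univ _) h

theorem put_apply_ne (h : H) (φ : μ → ℂ) (i : μ) (g : H) (hg : g ≠ h) :
    put h φ (((), i), g) = 0 := by
  classical
  unfold put
  rw [lp.coeFn_sum, Finset.sum_apply, Finset.sum_eq_zero]
  intro j _
  rw [lp.coeFn_smul, Pi.smul_apply, de_apply_ne, smul_zero]
  simp only [ne_eq, Prod.mk.injEq, not_and]
  exact fun _ => hg

theorem lt_put (g h : H) (φ : μ → ℂ) : lt (Unit × μ) g (put h φ) = put (g⁻¹ * h) φ := by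
  ext ⟨⟨⟨⟩, i⟩, k⟩
  rw [lt_apply]
  by_cases hk : g * k = h
  · rw [hk, put_apply_self]
    have : k = g⁻¹ * h := by rw [← hk]; group
    rw [← this, put_apply_self]
  · rw [put_apply_ne _ _ _ _ hk, put_apply_ne]
    intro hcon
    apply hk
    rw [hcon]
    group

theorem inner_put (w : L2 ((Unit × μ) × H)) (h : H) (φ : μ → ℂ) :
    ⟪w, put h φ⟫_ℂ = ∑ i, ⟪w (((), i), h), φ i⟫_ℂ := by
  unfold put
  rw [inner_sum]
  refine Finset.sum_congr rfl fun i _ => ?_
  rw [inner_smul_right, inner_de_right, RCLike.inner_apply]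

/-- a subspace with a pointwise condition -/
theorem eq_pt {E : Submodule ℂ (L2 ((Unit × μ) × H))}
    (hc : IsClosed (E : Set (L2 ((Unit × μ) × H)))) (hi : LInv E)
    (h : ∀ x ∈ E, put 1 (fun i => x (((), i), 1)) ∈ E) :
    ∃ Φ : Submodule ℂ (μ → ℂ), E = pt Φ ∧ ∀ x ∈ E, ∀ g, (fun i => x (((), i), g)) ∈ Φ := by
  let P : (μ → ℂ) →ₗ[ℂ] L2 ((Unit × μ) × H) :=
    { toFun := put 1
      map_add' := by
        intro φ ψ
        unfold put
        rw [← Finset.sum_add_distrib]
        exact Finset.sum_congr rfl fun i _ => by rw [Pi.add_apply, add_smul]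
      map_smul' := by
        intro c φ
        unfold put
        rw [RingHom.id_apply, Finset.smul_sum]
        exact Finset.sum_congr rfl fun i _ => by rw [Pi.smul_apply, smul_eq_mul, mul_smul] }
  have hval : ∀ x ∈ E, ∀ g, (fun i => x (((), i), g)) ∈ E.comap P := by
    intro x hx g
    have h1 := h _ (linv_lt hi g hx)
    simp only [lt_apply, mul_one] at h1
    exact h1
  refine ⟨E.comap P, le_antisymm ?_ ?_, hval⟩
  · rintro x hx ⟨⟩ g
    exact hval x hx g
  · intro x hx
    have iE := hasProj hc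
    rw [← Submodule.orthogonal_orthogonal E, Submodule.mem_orthogonal]
    intro w hw
    rw [Submodule.mem_orthogonal'] at hw
    rw [lp.inner_eq_tsum, tsum_prod_fin _ (lp.summable_inner _ _),
      ← Summable.tsum_finsetSum (fun j _ => ?_)]
    · have h1 : ∀ g : H, ∑ j : Unit × μ, ⟪w (j, g), x (j, g)⟫_ℂ = 0 := by
        intro g
        have h2 : put g (fun i => x (((), i), g)) ∈ E := by
          have h3 : put 1 (fun i => x (((), i), g)) ∈ E := hx () g
          have h4 := linv_lt hi g⁻¹ h3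
          rw [lt_put] at h4
          simpa using h4
        have h5 := hw _ h2
        rw [inner_put] at h5
        rw [Fintype.sum_prod_type, Fintype.sum_unique]
        exact h5
      simp only [h1, tsum_zero]
    · have h2 : Summable fun p : (Unit × μ) × H => ⟪w p, x p⟫_ℂ := lp.summable_inner _ _
      exact h2.comp_injective (Prod.mk_right_injective j)

/-- a subspace which is local to two subgroups with trivial intersection -/
theorem eq_pt_of_loc {E : Submodule ℂ (L2 ((Unit × μ) × H))}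
    (hc : IsClosed (E : Set (L2 ((Unit × μ) × H)))) (hi : LInv E) {D D' : Subgroup H}
    (h : LocM D E) (h' : LocM D' E) (ht : ∀ d ∈ D, d ∈ D' → d = 1) :
    ∃ Φ : Submodule ℂ (μ → ℂ), E = pt Φ ∧ ∀ x ∈ E, ∀ g, (fun i => x (((), i), g)) ∈ Φ := by
  apply eq_pt hc hi
  intro x hx
  have h1 := h' (ind D') (fun d hd x => ind_U D' hd x) _ (h (ind D) (fun d hd x => ind_U D hd x) x hx)
  have e : put 1 (fun i => x (((), i), 1)) = cw (Unit × μ) (ind D') (cw (Unit × μ) (ind D) x) := by
    apply ext_cj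
    intro k
    rw [cj_cw, cj_cw]
    ext ⟨⟨⟩, g⟩
    rw [cj_apply]
    obtain ⟨⟨⟩, i⟩ := k
    by_cases hg : g = 1
    · subst hg
      rw [put_apply_self, ind_mem D' _ _ D'.one_mem, ind_mem D _ _ D.one_mem, cj_apply]
    · rw [put_apply_ne _ _ _ _ hg]
      by_cases hD' : g ∈ D'
      · rw [ind_mem D' _ _ hD', ind_not_mem D]
        exact fun hD => hg (ht g hD hD')
      · rw [ind_not_mem D' _ _ hD']
  rw [e]
  exact h1

end

end Pool.Agent.V5helper38.BP
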