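import Pool.Agent.V5helper38.BP.Lc

/-!
Windows: a pencil over `R` with a kernel of dimension between `0` and `1` at `z` gives an equation
for `z` whose coefficients are defined over `R`.
-/

set_option autoImplicit false
set_option linter.unusedSectionVars false

open scoped InnerProductSpace ENNReal ComplexConjugate
open Topology

namespace Pool.Agent.V5helper38.BP

open Pool.Agent.W656.VA
open Pool.Agent.H80R2
open Pool.Agent.H80R2.BC (L2 GMat vdim IsTr LInv Equi act kerA Coef pt)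
open Pool.Agent.H812R3
open Pool.Agent.TH25.AD
open Pool.Agent.V5helper38.AA

/-- infinitely many commuting independent copies of `H` in `H` -/
structure Slots (H : Type) [Group H] where
  φ : ℕ → (H →* H)
  inj : ∀ s, Function.Injective (φ s)
  D : Set ℕ → Subgroup H
  mono : ∀ {I J : Set ℕ}, I ⊆ J → D I ≤ D J
  mem : ∀ s x, φ s x ∈ D {s}
  comm : ∀ {I J : Set ℕ}, Disjoint I J → ∀ a ∈ D I, ∀ b ∈ D J, a * b = b * a
  triv : ∀ {I J : Set ℕ}, Disjoint I J → ∀ a ∈ D I, a ∈ D J → a = 1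

/-- two disjoint sets with the smallest value -/
theorem combi (d : Finset ℕ → ℕ) (N : ℕ) (hN : ∀ J, J.Nonempty → d J ≤ N) :
    ∃ J J' : Finset ℕ, J.Nonempty ∧ J'.Nonempty ∧ Disjoint J J' ∧ d J ≤ d (J ∪ J') ∧
      d J' ≤ d (J ∪ J') := by
  classical
  let good : ℕ → Prop := fun m => ∃ F : Finset ℕ, ∀ J, J.Nonempty → Disjoint F J → m ≤ d J
  have h0 : good 0 := ⟨∅, fun _ _ _ => Nat.zero_le _⟩
  have hb : ∀ m, good m → m ≤ N := by
    rintro m ⟨F, hF⟩
    obtain ⟨a, ha⟩ := Infinite.exists_notMem_finset F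
    exact (hF {a} (Finset.singleton_nonempty a) (Finset.disjoint_singleton_right.2 ha)).trans
      (hN _ (Finset.singleton_nonempty a))
  obtain ⟨m, hm, hmax'⟩ : ∃ m, good m ∧ ∀ m', good m' → m' ≤ m :=
    ⟨Nat.findGreatest good N, Nat.findGreatest_spec (Nat.zero_le _) h0,
      fun m' hm' => Nat.le_findGreatest (hb m' hm') hm'⟩
  have hmax : ∀ F : Finset ℕ, ∃ J : Finset ℕ, J.Nonempty ∧ Disjoint F J ∧ d J ≤ m := by
    intro F
    by_contra hcon
    push Not at hcon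
    have h1 : good (m + 1) := ⟨F, fun J hJ hFJ => hcon J hJ hFJ⟩
    have := hmax' _ h1
    omega
  obtain ⟨F, hF⟩ := hm
  obtain ⟨J, hJ, hFJ, hd⟩ := hmax F
  obtain ⟨J', hJ', hFJ', hd'⟩ := hmax (F ∪ J)
  have h1 := Finset.disjoint_union_left.1 hFJ'
  have h2 : m ≤ d (J ∪ J') :=
    hF _ (hJ.mono Finset.subset_union_left) (Finset.disjoint_union_right.2 ⟨hFJ, h1.1⟩)
  exact ⟨J, J', hJ, hJ', h1.2, hd.trans h2, hd'.trans h2⟩

section

variable {ι κ H : Type} [Group H] [Fintype ι] [Fintype κ]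

theorem push_pen {G' : Type} (f : H → G') (Q0 Q1 : GMat κ ι H) (z : ℂ) :
    BC.push f (BC.pen Q0 Q1 z) = BC.pen (BC.push f Q0) (BC.push f Q1) z := by
  funext k i
  unfold BC.push BC.pen
  rw [Finsupp.mapDomain_add, Finsupp.mapDomain_smul]

theorem push_rowT {G' : Type} [Group G'] (f : H →* G') (i : ι) :
    BC.push f (rowT H i) = rowT G' i := by
  classical
  funext k j
  unfold BC.push rowT
  split_ifs
  · rw [Finsupp.mapDomain_single, map_one]
  · rw [Finsupp.mapDomain_zero]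

theorem act_rowT (i : ι) (x : ι × H → ℂ) (g : H) : act (rowT H i) x () g = x (i, g) := by
  classical
  unfold act rowT
  rw [Finset.sum_eq_single i]
  · rw [if_pos rfl, Finsupp.sum_single_index (by simp), one_mul, mul_one]
  · intro j _ hj
    rw [if_neg hj]
    simp
  · intro h
    exact absurd (Finset.mem_univ _) h

/-- a coordinate of the windows -/
noncomputable def Pw (Q0 Q1 : GMat κ ι H) (i0 : ι) (l : ℕ) :
    Submodule ℂ (L2 ((Unit × Fin (l + 1)) × H)) :=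
  ((kerA (BC.Tm Q0 Q1 l)).map (op (sel H fun p : Unit × Fin (l + 1) => (i0, p.2)) :
    L2 ((ι × Fin (l + 1)) × H) →ₗ[ℂ] L2 ((Unit × Fin (l + 1)) × H))).topologicalClosure

theorem df_Pw {R : Subring ℂ} {Q0 Q1 : GMat κ ι H} (h0 : Coef R Q0) (h1 : Coef R Q1) (i0 : ι)
    (l : ℕ) : DF R (Pw Q0 Q1 i0 l) := (df_ker (coef_Tm h0 h1 l)).image (coef_sel R _)

theorem vdim_Pw (Q0 Q1 : GMat κ ι H) (i0 : ι) (l : ℕ) {a : ℂ} (ha : kz Q0 Q1 a = 0) :
    vdim (Pw Q0 Q1 i0 l) ≤ Fintype.card ι := by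
  have h1 := vdim_rank (isClosed_kerA (BC.Tm Q0 Q1 l)) (linv_kerA _)
    (op (sel H fun p : Unit × Fin (l + 1) => (i0, p.2))) (equi_op _)
  have h2 := w_upper Q0 Q1 a l
  rw [fd_top, ha, mul_zero, add_zero] at h2
  have h3 := vdim_nonneg (kerA (BC.Tm Q0 Q1 l) ⊓
    kr (op (sel H fun p : Unit × Fin (l + 1) => (i0, p.2))))
  unfold Pw
  linarith

theorem supp_Tm {D : Subgroup H} {Q0 Q1 : GMat κ ι H}
    (h0 : ∀ k i, ∀ h ∈ (Q0 k i).support, h ∈ D) (h1 : ∀ k i, ∀ h ∈ (Q1 k i).support, h ∈ D)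
    (l : ℕ) : ∀ k i, ∀ h ∈ (BC.Tm Q0 Q1 l k i).support, h ∈ D := by
  classical
  intro k i h hh
  unfold BC.Tm at hh
  rcases Finset.mem_union.1 (Finsupp.support_add hh) with h2 | h2
  · split_ifs at h2
    · exact h0 _ _ _ h2
    · simp at h2
  · split_ifs at h2
    · exact h1 _ _ _ h2
    · simp at h2

theorem supp_pen {D : Subgroup H} {Q0 Q1 : GMat κ ι H}
    (h0 : ∀ k i, ∀ h ∈ (Q0 k i).support, h ∈ D) (h1 : ∀ k i, ∀ h ∈ (Q1 k i).support, h ∈ D)
    (z : ℂ) : ∀ k i, ∀ h ∈ (BC.pen Q0 Q1 z k i).support, h ∈ D := by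
  classical
  intro k i h hh
  unfold BC.pen at hh
  rcases Finset.mem_union.1 (Finsupp.support_add hh) with h2 | h2
  · exact h0 _ _ _ h2
  · exact h1 _ _ _ (Finsupp.support_smul h2)

theorem supp_rowT {D : Subgroup H} (i0 : ι) :
    ∀ k i, ∀ h ∈ (rowT H i0 k i).support, h ∈ D := by
  classical
  intro k i h hh
  unfold rowT at hh
  split_ifs at hh
  · rw [Finset.mem_singleton.1 (Finsupp.support_single_subset hh)]
    exact D.one_mem
  · simp at hh

theorem supp_sel {D : Subgroup H} {ν : Type} (f : ν → ι) :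
    ∀ k i, ∀ h ∈ (sel H f k i).support, h ∈ D := by
  classical
  intro k i h hh
  unfold sel at hh
  split_ifs at hh
  · rw [Finset.mem_singleton.1 (Finsupp.support_single_subset hh)]
    exact D.one_mem
  · simp at hh

theorem supp_push {D : Subgroup H} {f : H →* H} (hf : ∀ x, f x ∈ D) (A : GMat κ ι H) :
    ∀ k i, ∀ h ∈ (BC.push f A k i).support, h ∈ D := by
  classical
  intro k i h hh
  obtain ⟨y, _, rfl⟩ := Finset.mem_image.1 (Finsupp.mapDomain_support hh)
  exact hf y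

/-- geometric windows -/
theorem tp_mem (Q0 Q1 : GMat κ ι H) (z : ℂ) (i0 : ι) (l : ℕ) {y : L2 (Unit × H)}
    (hy : y ∈ lampP (BC.pen Q0 Q1 z) (rowT H i0)) :
    op (tp Unit H (geo z l)) y ∈ Pw Q0 Q1 i0 l := by
  have h1 : lampP (BC.pen Q0 Q1 z) (rowT H i0) ≤ (Pw Q0 Q1 i0 l).comap
      (op (tp Unit H (geo z l)) : L2 (Unit × H) →ₗ[ℂ] L2 ((Unit × Fin (l + 1)) × H)) := by
    apply Submodule.topologicalClosure_minimal _ _
      ((Submodule.isClosed_topologicalClosure _).preimage (op (tp Unit H (geo z l))).continuous)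
    rintro _ ⟨u, hu, rfl⟩
    rw [Submodule.mem_comap]
    apply Submodule.le_topologicalClosure
    refine ⟨op (tp ι H (geo z l)) u, ?_, ?_⟩
    · rintro ⟨k, i⟩ g
      have hu' : act (BC.pen Q0 Q1 z) u k g = 0 := hu k g
      rw [act_pen] at hu'
      rw [act_Tm_tp]
      simp only [geo, Fin.val_castSucc, Fin.val_succ]
      linear_combination z ^ (i : ℕ) * hu'
    · ext ⟨⟨⟨⟩, n⟩, g⟩
      show op (sel H fun p : Unit × Fin (l + 1) => (i0, p.2)) (op (tp ι H (geo z l)) u)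
        (((), n), g) = op (tp Unit H (geo z l)) (op (rowT H i0) u) (((), n), g)
      rw [op_sel, op_apply, act_tp, op_apply, act_tp, op_apply, act_rowT]
  exact h1 hy

/-- intersections of independent subspaces -/
theorem vdim_iInf (S : Slots H) (K : ℕ → Submodule ℂ (L2 (Unit × H))) (δ : ℝ)
    (hc : ∀ s, IsClosed (K s : Set (L2 (Unit × H)))) (hl : ∀ s, Loc (S.D {s}) (K s))
    (hv : ∀ s, vdim (K s) = δ) (J : Finset ℕ) :
    IsClosed ((⨅ s ∈ J, K s : Submodule ℂ (L2 (Unit × H))) : Set (L2 (Unit × H))) ∧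
      Loc (S.D (J : Set ℕ)) (⨅ s ∈ J, K s) ∧ vdim (⨅ s ∈ J, K s) = δ ^ J.card := by
  classical
  induction J using Finset.induction_on with
  | empty =>
    simp only [Finset.notMem_empty, iInf_false, iInf_top, Finset.card_empty, pow_zero]
    refine ⟨isClosed_univ, Loc.top, ?_⟩
    rw [vdim_top]
    simp
  | insert a J ha ih =>
    obtain ⟨h1, h2, h3⟩ := ih
    rw [Finset.iInf_insert]
    refine ⟨isClosed_inf (hc a) h1, ?_, ?_⟩
    · apply Loc.inf
      · exact (hl a).mono (S.mono (by simp))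
      · exact h2.mono (S.mono (by simp))
    · have hd : Disjoint ({a} : Set ℕ) (J : Set ℕ) := by
        rw [Set.disjoint_singleton_left]
        exact fun h => ha (Finset.mem_coe.1 h)
      rw [vdim_indep (hc a) h1 (hl a) h2 (S.comm hd) (S.triv hd), hv, h3,
        Finset.card_insert_of_notMem ha, pow_succ]
      ring

/-- **The equation.** -/
theorem window_relation (S : Slots H) {R : Subring ℂ} (hI : IntR R H) (Q0 Q1 : GMat κ ι H)
    (h0 : Coef R Q0) (h1 : Coef R Q1) (z : ℂ) (i0 : ι)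
    (hinj : kerA (BC.pen Q0 Q1 z) ⊓ kerA (rowT H i0) = ⊥) (hpos : 0 < kz Q0 Q1 z)
    (hlt : kz Q0 Q1 z < 1) :
    ∃ (l : ℕ) (i : Fin (l + 1)) (I : Finset (Fin (l + 1))) (c : Fin (l + 1) → ℂ), i ∉ I ∧
      (∀ j ∈ I, Rp R H (c j)) ∧ z ^ (i : ℕ) = ∑ j ∈ I, c j * z ^ (j : ℕ) := by
  classical
  -- a point with a trivial kernel
  obtain ⟨a, ha⟩ : ∃ a : ℤ, kz Q0 Q1 a = 0 := by
    by_contra hcon
    push Not at hcon
    have h2 : ∀ a : ℤ, 1 ≤ kz Q0 Q1 a := by
      intro a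
      obtain ⟨n, hn⟩ := hI _ (val_of _ (coef_pen h0 h1 (a := (a : ℂ)) (intCast_mem R a)))
      have h3 : kz Q0 Q1 a = n := hn
      have h4 : 0 ≤ kz Q0 Q1 a := vdim_nonneg _
      have h5 := hcon a
      rw [h3] at h4 h5 ⊢
      have h6 : (0 : ℤ) ≤ n := by exact_mod_cast h4
      have h7 : n ≠ 0 := by
        rintro rfl
        exact h5 (by simp)
      have h8 : (1 : ℤ) ≤ n := by omega
      exact_mod_cast h8
    have h3 : {a : ℂ | 1 ≤ kz Q0 Q1 a}.Infinite := by
      refine (Set.infinite_range_of_injective (Int.cast_injective (α := ℂ))).mono ?_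
      rintro _ ⟨a, rfl⟩
      exact h2 a
    exact absurd (semicont Q0 Q1 1 h3 z) (not_le.2 hlt)
  -- the copies
  let q0 : ℕ → GMat κ ι H := fun s => BC.push (S.φ s) Q0
  let q1 : ℕ → GMat κ ι H := fun s => BC.push (S.φ s) Q1
  have hq0 : ∀ s, Coef R (q0 s) := fun s => coef_push _ _ h0
  have hq1 : ∀ s, Coef R (q1 s) := fun s => coef_push _ _ h1
  have hkz : ∀ s b, kz (q0 s) (q1 s) b = kz Q0 Q1 b := by
    intro s b
    show vdim (kerA (BC.pen (BC.push (S.φ s) Q0) (BC.push (S.φ s) Q1) b)) = _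
    rw [← push_pen, vdim_push _ (S.inj s)]
    rfl
  have hinjs : ∀ s, kerA (BC.pen (q0 s) (q1 s) z) ⊓ kerA (rowT H i0) = ⊥ := by
    intro s
    show kerA (BC.pen (BC.push (S.φ s) Q0) (BC.push (S.φ s) Q1) z) ⊓ _ = ⊥
    rw [← push_pen, ← push_rowT (S.φ s), ← kerA_stack, ← push_stack]
    apply eq_bot_of_vdim (isClosed_kerA _) (linv_kerA _)
    rw [vdim_push _ (S.inj s), kerA_stack, hinj, vdim_bot]
  set l : ℕ := Fintype.card ι with hl
  let P : ℕ → Submodule ℂ (L2 ((Unit × Fin (l + 1)) × H)) := fun s => Pw (q0 s) (q1 s) i0 l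
  let K : ℕ → Submodule ℂ (L2 (Unit × H)) := fun s => lampP (BC.pen (q0 s) (q1 s) z) (rowT H i0)
  have hP : ∀ s, DF R (P s) := fun s => df_Pw (hq0 s) (hq1 s) i0 l
  have hPl : ∀ s, LocM (S.D {s}) (P s) := fun s =>
    locM_image _ (supp_Tm (supp_push (S.mem s) Q0) (supp_push (S.mem s) Q1) l) (supp_sel _)
  have hKl : ∀ s, Loc (S.D {s}) (K s) := fun s =>
    loc_lampP _ (supp_pen (supp_push (S.mem s) Q0) (supp_push (S.mem s) Q1) z) (supp_rowT i0)
  have hKv : ∀ s, vdim (K s) = kz Q0 Q1 z := by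
    intro s
    rw [← hkz s]
    exact vdim_lampP _ _ (hinjs s)
  have hKJ := vdim_iInf S K (kz Q0 Q1 z) (fun s => closed_lampP _ _) hKl hKv
  let Q : Finset ℕ → Submodule ℂ (L2 ((Unit × Fin (l + 1)) × H)) := fun J => ⨅ s ∈ J, P s
  have hQ : ∀ J, DF R (Q J) := fun J => df_finset J P fun s _ => hP s
  have hQl : ∀ J : Finset ℕ, LocM (S.D (J : Set ℕ)) (Q J) := fun J =>
    locM_finset J P fun s hs => (hPl s).mono (S.mono (by simpa using hs))
  have hQa : ∀ J J' : Finset ℕ, J ⊆ J' → Q J' ≤ Q J := fun J J' h => biInf_mono fun s hs => h hs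
  have hd : ∀ J, ∃ n : ℕ, vdim (Q J) = n := by
    intro J
    obtain ⟨n, hn⟩ := (hQ J).int hI
    have h2 := vdim_nonneg (Q J)
    rw [hn] at h2
    have h3 : (0 : ℤ) ≤ n := by exact_mod_cast h2
    refine ⟨n.toNat, ?_⟩
    rw [hn]
    have h4 := Int.toNat_of_nonneg h3
    exact_mod_cast h4.symm
  choose d hd using hd
  obtain ⟨J, J', hJ, hJ', hdis, hdJ, hdJ'⟩ := combi d (Fintype.card ι) (by
    rintro J ⟨s, hs⟩
    have h2 : Q J ≤ P s := iInf₂_le s hs
    have h3 := (vdim_mono h2).trans (vdim_Pw (q0 s) (q1 s) i0 l (a := (a : ℂ)) (by rw [hkz, ha]))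
    rw [hd] at h3
    exact_mod_cast h3)
  have e1 : Q (J ∪ J') = Q J := by
    apply eq_of_vdim (hQ _).closed (hQ _).linv (hQ _).closed (hQ _).linv
      (hQa _ _ Finset.subset_union_left)
    rw [hd, hd]
    exact_mod_cast hdJ
  have e2 : Q (J ∪ J') = Q J' := by
    apply eq_of_vdim (hQ _).closed (hQ _).linv (hQ _).closed (hQ _).linv
      (hQa _ _ Finset.subset_union_right)
    rw [hd, hd]
    exact_mod_cast hdJ'
  have e3 : Q J = Q J' := e1.symm.trans e2
  have hdisc : Disjoint (J : Set ℕ) (J' : Set ℕ) := Finset.disjoint_coe.2 hdis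
  obtain ⟨Φ, hΦ, hval⟩ := eq_pt_of_loc (hQ J).closed (hQ J).linv (hQl J)
    (by rw [e3]; exact hQl J') (S.triv hdisc)
  -- `Φ` is a proper subspace
  have hΦtop : Φ ≠ ⊤ := by
    rintro rfl
    rw [pt_top] at hΦ
    obtain ⟨s, hs⟩ := hJ
    have h2 : Q J ≤ P s := iInf₂_le s hs
    have h3 := (vdim_mono h2).trans (vdim_Pw (q0 s) (q1 s) i0 l (a := (a : ℂ)) (by rw [hkz, ha]))
    rw [hΦ, vdim_top] at h3
    have h4 : Fintype.card (Unit × Fin (l + 1)) ≤ Fintype.card ι := by exact_mod_cast h3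
    rw [Fintype.card_prod, Fintype.card_unit, Fintype.card_fin, one_mul] at h4
    omega
  -- the geometric vector
  have hgeo : geo z l ∈ Φ := by
    have h2 : (0 : ℝ) < vdim (⨅ s ∈ J, K s) := by
      rw [(hKJ J).2.2]
      exact pow_pos hpos _
    have h3 : (⨅ s ∈ J, K s) ≠ ⊥ := by
      intro h
      rw [h, vdim_bot] at h2
      exact lt_irrefl _ h2
    obtain ⟨y, hy, hy0⟩ := (Submodule.ne_bot_iff _).1 h3
    have hy1 : op (tp Unit H (geo z l)) y ∈ Q J := by
      rw [Submodule.mem_iInf] at hy ⊢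
      intro s
      have h4 := hy s
      rw [Submodule.mem_iInf] at h4 ⊢
      intro hs
      exact tp_mem _ _ z i0 l (h4 hs)
    obtain ⟨g, hg⟩ : ∃ g : H, y ((), g) ≠ 0 := by
      by_contra hcon
      push Not at hcon
      apply hy0
      ext ⟨⟨⟩, g⟩
      exact hcon g
    have h5 := hval _ hy1 g
    have h6 : (fun i => op (tp Unit H (geo z l)) y (((), i), g)) = y ((), g) • geo z l := by
      funext i
      rw [op_apply, act_tp, Pi.smul_apply, smul_eq_mul, mul_comm]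
    rw [h6] at h5
    exact (Φ.smul_mem_iff hg).1 h5
  obtain ⟨i, I, c, hiI, hrel, hwit⟩ := relation Φ hΦtop
  refine ⟨l, i, I, c, hiI, ?_, hrel _ hgeo⟩
  intro j hj
  have h2 := hQ J
  rw [hΦ] at h2
  exact rp_of_relation Φ h2 i I c hrel j hj (hwit j hj)

end

end Pool.Agent.V5helper38.BP
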