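import Pool.Agent.V5helper38.BP.AlgF
import Pool.Agent.V5helper38.BP.Win

/-!
Base change for one group which contains infinitely many commuting independent copies of itself.
-/

set_option autoImplicit false
set_option linter.unusedSectionVars false

open scoped InnerProductSpace ENNReal ComplexConjugate
open Topology

namespace Pool.Agent.V5helper38.BP

open Pool.Agent.W656.VA
open Pool.Agent.H80R2
open Pool.Agent.H80R2.BC (L2 GMat vdim IsTr LInv Equi act kerA Coef pt)
open Pool.Agent.H812R3
open Pool.Agent.TH25.AD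
open Pool.Agent.V5helper38.AA

section

variable {H : Type} [Group H]

/-- transcendental numbers -/
theorem pencil_int (S : Slots H) {R : Subring ℂ} (hI : IntR R H)
    (hR : ∀ c, Rp R H c → c ∈ R) (z : ℂ)
    (hz : ∀ p : Polynomial ℂ, (∀ n, p.coeff n ∈ R) → p ≠ 0 → p.eval z ≠ 0) :
    ∀ (ι κ : Type) [Fintype ι] [Fintype κ] (Q0 Q1 : GMat κ ι H), Coef R Q0 → Coef R Q1 →
      ∃ n : ℤ, kz Q0 Q1 z = n := by
  classical
  by_contra hno
  push Not at hno
  obtain ⟨ι₀, κ₀, _, _, Q0', Q1', h0', h1', hv'⟩ := hno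
  let P : ℕ → Prop := fun m => ∃ (ι κ : Type) (_ : Fintype ι) (_ : Fintype κ)
    (Q0 Q1 : GMat κ ι H), Fintype.card ι = m ∧ Coef R Q0 ∧ Coef R Q1 ∧
      ¬ ∃ n : ℤ, kz Q0 Q1 z = n
  have hP : ∃ m, P m := ⟨_, ι₀, κ₀, inferInstance, inferInstance, Q0', Q1', rfl, h0', h1', by
    push Not; exact hv'⟩
  obtain ⟨ι, κ, _, _, Q0, Q1, hcard, h0, h1, hv⟩ := Nat.find_spec hP
  obtain ⟨i0, hinj, hpos, hlt⟩ := min_coord (BC.pen Q0 Q1 z) (by
    rintro J ⟨j, hj⟩
    rw [vdim_rst]
    by_contra hcon
    refine Nat.find_min hP (m := Fintype.card {i : ι // i ∉ J}) ?_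
      ⟨{i : ι // i ∉ J}, κ, inferInstance, inferInstance, rst Q0 J, rst Q1 J, rfl,
        fun k i h => h0 k i h, fun k i h => h1 k i h, hcon⟩
    rw [← hcard]
    exact Fintype.card_subtype_lt (x := j) (not_not.2 hj)) hv
  obtain ⟨l, i, I, c, hiI, hc, hrel⟩ := window_relation S hI Q0 Q1 h0 h1 z i0 hinj hpos hlt
  set p : Polynomial ℂ := Polynomial.monomial (i : ℕ) 1 -
    ∑ j ∈ I, Polynomial.monomial (j : ℕ) (c j) with hp
  have hcoef : ∀ n, p.coeff n = (if (i : ℕ) = n then 1 else 0) -
      ∑ j ∈ I, if (j : ℕ) = n then c j else 0 := by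
    intro n
    rw [hp, Polynomial.coeff_sub, Polynomial.coeff_monomial, Polynomial.finsetSum_coeff]
    simp only [Polynomial.coeff_monomial]
  refine hz p ?_ ?_ ?_
  · intro n
    rw [hcoef]
    apply R.sub_mem
    · split_ifs
      · exact R.one_mem
      · exact R.zero_mem
    · apply R.sum_mem
      intro j hj
      split_ifs
      · exact hR _ (hc j hj)
      · exact R.zero_mem
  · intro h
    have h2 := hcoef i
    rw [h, Polynomial.coeff_zero, if_pos rfl, Finset.sum_eq_zero] at h2
    · norm_num at h2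
    · intro j hj
      rw [if_neg]
      intro hcon
      apply hiI
      rw [← Fin.ext hcon]
      exact hj
  · rw [hp, Polynomial.eval_sub, Polynomial.eval_monomial, Polynomial.eval_finsetSum]
    simp only [Polynomial.eval_monomial]
    rw [one_mul, hrel, sub_self]

/-- **Base change.** -/
theorem base_change_slots (S : Slots H) (e : H × H →* H) (he : Function.Injective e)
    (h : IntR (⊥ : Subring ℂ) H) (R' : Subring ℂ) : IntR R' H := by
  classical
  obtain ⟨R, hI, hmax⟩ := exists_max h
  have hR : ∀ c, Rp R H c → c ∈ R := by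
    intro c hc
    have h1 := hmax _ (int_adj_of_rp hc hI) (le_adj R c)
    rw [← h1]
    exact mem_adj R c
  have hinv : ∀ c ∈ R, c⁻¹ ∈ R := by
    intro c hc
    by_cases h0 : c = 0
    · rw [h0, inv_zero]
      exact R.zero_mem
    · exact hR _ (rp_inv hc h0)
  let F : Subfield ℂ := { R with inv_mem' := hinv }
  have hF : ∀ c, c ∈ F ↔ c ∈ R := fun c => Iff.rfl
  have hrange : (algebraMap F ℂ).range = R := by
    ext c
    constructor
    · rintro ⟨a, rfl⟩
      exact a.2
    · intro hc
      exact ⟨⟨c, hc⟩, rfl⟩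
  -- the class of the groups which embed into `H`
  let C : (G : Type) → [Group G] → Prop := fun G _ => ∃ f : G →* H, Function.Injective f
  have hC : ∀ (G G' : Type) [Group G] [Group G'], C G → C G' → C (G × G') := by
    rintro G G' _ _ ⟨f, hf⟩ ⟨f', hf'⟩
    exact ⟨e.comp (f.prodMap f'), he.comp (Prod.map_injective.2 ⟨hf, hf'⟩)⟩
  have halg : ∀ c, IsAlgebraic F c → c ∈ R := by
    let R1 : Subring ℂ := (algebraicClosure F ℂ).toSubring
    have hR1 : ∀ c, c ∈ R1 ↔ IsAlgebraic F c := fun c => mem_algebraicClosure_iff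
    have h1 := alg_intF (F := F) hC (by
      rintro G _ ⟨f, hf⟩ v hv
      rw [hrange] at hv
      exact hI v (val_incl f hf hv)) R1 hR1 H ⟨MonoidHom.id H, fun _ _ h => h⟩
    have h2 := hmax R1 h1 (by
      intro c hc
      rw [hR1]
      exact isAlgebraic_algebraMap (⟨c, hc⟩ : F))
    intro c hc
    rw [← h2]
    exact (hR1 c).2 hc
  have htop : ∀ z : ℂ, z ∈ R := by
    intro z
    by_contra hz
    have h1 := hmax _ (int_adj_of_pencils (pencil_int S hI hR z (by
      intro p hp hp0 hpz
      apply hz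
      apply halg
      let q : Polynomial F := ∑ n ∈ p.support, Polynomial.monomial n (⟨p.coeff n, hp n⟩ : F)
      have hq : q.map (algebraMap F ℂ) = p := by
        show (∑ n ∈ p.support, Polynomial.monomial n (⟨p.coeff n, hp n⟩ : F)).map _ = p
        rw [Polynomial.map_sum]
        simp only [Polynomial.map_monomial]
        exact p.as_sum_support.symm
      refine ⟨q, ?_, ?_⟩
      · rintro hq0
        apply hp0
        rw [← hq, hq0, Polynomial.map_zero]
      · rw [Polynomial.aeval_def, ← Polynomial.eval_map, hq]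
        exact hpz))) (le_adj R z)
    apply hz
    rw [← h1]
    exact mem_adj R z
  rintro v ⟨m, n, A, _, rfl⟩
  exact hI _ ⟨m, n, A, fun _ _ _ => htop _, rfl⟩

end

end Pool.Agent.V5helper38.BP
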