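import Pool.Agent.V5helper38.BP.Fs
import Pool.Agent.V5helper38.AA.Amen

/-!
All or nothing for small classes of groups, with complex coefficients, and with one group.
-/

set_option autoImplicit false
set_option linter.unusedSectionVars false

open scoped InnerProductSpace ENNReal ComplexConjugate
open Topology

namespace Pool.Agent.V5helper38.BP

open Pool.Agent.W656.VA
open Pool.Agent.H80R2
open Pool.Agent.H80R2.BC (L2 GMat vdim IsTr LInv Equi act kerA Coef pt)
open Pool.Agent.H812R3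
open Pool.Agent.TH25.AD
open Pool.Agent.V5helper38.AA
open Pool.Agent.V5helper38.AA.Kl (FS mem_FS)

/-- one group with all values -/
theorem one_group {G : Type} [Group G] (htf : TF G)
    (h : ∃ v : ℝ, Val (⊥ : Subring ℂ) G v ∧ ¬ ∃ z : ℤ, v = z) (r : ℝ) (hr : 0 ≤ r) :
    Val (⊥ : Subring ℂ) (FS (Hs G)) r := by
  obtain ⟨e, he⟩ := fs_sq (Hs G)
  obtain ⟨i, hi⟩ := fs_incl (Hs G)
  obtain ⟨H, _, ⟨f, hf⟩, hv⟩ := all_values_gen
    (C := fun (K : Type) [Group K] => ∃ f : K →* FS (Hs G), Function.Injective f)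
    (by
      rintro K K' _ _ ⟨f, hf⟩ ⟨f', hf'⟩
      exact ⟨e.comp (f.prodMap f'), he.comp (Prod.map_injective.2 ⟨hf, hf'⟩)⟩)
    conj_bot ⟨i.comp (inc' G), hi.comp inc'_inj⟩ htf ⟨i, hi⟩ h r hr
  exact val_incl f hf hv

/-- **All or nothing** for small classes: a kernel dimension with complex coefficients which is not
an integer gives one group in the class for which all numbers occur with integer coefficients. -/
theorem all_one {C : (G : Type) → [Group G] → Prop} (hC : Kl C) {G : Type} [Group G] (hG : C G)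
    {v : ℝ} (hv : Val (⊤ : Subring ℂ) G v) (hvz : ¬ ∃ z : ℤ, v = z) :
    ∃ (H : Type) (_ : Group H), C H ∧ ∀ r : ℝ, 0 ≤ r → Val (⊥ : Subring ℂ) H r := by
  obtain ⟨K, _, hK, w, hw, hwz⟩ : ∃ (K : Type) (_ : Group K), C K ∧
      ∃ w : ℝ, Val (⊥ : Subring ℂ) K w ∧ ¬ ∃ z : ℤ, w = z := by
    by_contra hno
    push Not at hno
    obtain ⟨z, hz⟩ := base_change_prod (R := (⊥ : Subring ℂ))
      (fun G _ h => hC.prod G G h h) (by
        intro K _ hK w hw
        exact hno K inferInstance hK w hw) ⊤ G hG v hv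
    exact hvz ⟨z, hz⟩
  exact ⟨FS (Hs K), inferInstance, hC.fs (hC.hs hK), one_group (hC.tf K hK) ⟨w, hw, hwz⟩⟩

end Pool.Agent.V5helper38.BP
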