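import Pool.Agent.V5helper38.BP.Df

/-!
Vectors with values in a fixed space `Φ ⊆ ℂ^μ`: if this condition is defined over `R`, then `Φ` has
equations with coefficients in the numbers `c` for which the graph of the multiplication by `c` is
defined over `R`; such numbers can be adjoined to `R`.
-/

set_option autoImplicit false
set_option linter.unusedSectionVars false

open scoped InnerProductSpace ENNReal ComplexConjugate
open Filter Topology

namespace Pool.Agent.V5helper38.BP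

open Pool.Agent.W656.VA
open Pool.Agent.H80R2
open Pool.Agent.H80R2.BC (L2 GMat vdim IsTr LInv Equi act kerA Coef pt)
open Pool.Agent.H812R3
open Pool.Agent.TH25.AD
open Pool.Agent.V5helper38.AA

section

variable {ι κ μ ν H : Type} [Group H] [Fintype ι] [Fintype κ] [Fintype μ] [Fintype ν]

open Classical in
/-- selection of coordinates -/
noncomputable def sel (H : Type) [Group H] {ι κ : Type} (f : κ → ι) : GMat κ ι H :=
  fun k i => if i = f k then Finsupp.single 1 1 else 0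

theorem act_sel (f : κ → ι) (x : ι × H → ℂ) (k : κ) (g : H) :
    act (sel H f) x k g = x (f k, g) := by
  classical
  unfold act sel
  rw [Finset.sum_eq_single (f k)]
  · rw [if_pos rfl, Finsupp.sum_single_index (by simp), one_mul, mul_one]
  · intro j _ hj
    rw [if_neg hj]
    simp
  · intro h
    exact absurd (Finset.mem_univ _) h

theorem op_sel (f : κ → ι) (x : L2 (ι × H)) (k : κ) (g : H) :
    op (sel H f) x (k, g) = x (f k, g) := by
  rw [op_apply, act_sel]

theorem coef_sel (R : Subring ℂ) (f : κ → ι) : Coef R (sel H f) := by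
  classical
  intro k i g
  unfold sel
  split_ifs
  · exact coef_single _ _ R.one_mem _
  · exact R.zero_mem

theorem kerA_sc (L : (μ → ℂ) →ₗ[ℂ] (ν → ℂ)) :
    kerA (sc ι H L) = (pt (LinearMap.ker L) : Submodule ℂ (L2 ((ι × μ) × H))) := by
  ext x
  rw [mem_kerA]
  constructor
  · intro h p g
    rw [LinearMap.mem_ker]
    funext n
    rw [← act_sc]
    exact h (p, n) g
  · rintro h ⟨p, n⟩ g
    rw [act_sc]
    have := h p g
    rw [LinearMap.mem_ker] at this
    rw [this]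
    rfl

theorem image_pt (L : (μ → ℂ) →ₗ[ℂ] (ν → ℂ)) (Φ : Submodule ℂ (μ → ℂ)) :
    ((pt Φ : Submodule ℂ (L2 ((ι × μ) × H))).map
      (op (sc ι H L) : L2 ((ι × μ) × H) →ₗ[ℂ] L2 ((ι × ν) × H))).topologicalClosure =
      (pt (Φ.map L) : Submodule ℂ (L2 ((ι × ν) × H))) := by
  apply le_antisymm
  · apply Submodule.topologicalClosure_minimal _ _ (isClosed_pt _)
    rintro _ ⟨x, hx, rfl⟩
    intro p g
    refine ⟨fun i => x ((p, i), g), hx p g, ?_⟩
    funext n
    exact (op_sc L x p n g).symm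
  · -- a linear section
    obtain ⟨σ, hσ⟩ : ∃ σ : (ν → ℂ) →ₗ[ℂ] (μ → ℂ), ∀ φ ∈ Φ.map L, σ φ ∈ Φ ∧ L (σ φ) = φ := by
      let L' : Φ →ₗ[ℂ] (Φ.map L : Submodule ℂ (ν → ℂ)) :=
        (L.domRestrict Φ).codRestrict (Φ.map L) fun x => ⟨x, x.2, rfl⟩
      have hsurj : LinearMap.range L' = ⊤ := by
        rw [LinearMap.range_eq_top]
        rintro ⟨_, ⟨x, hx, rfl⟩⟩
        exact ⟨⟨x, hx⟩, rfl⟩
      obtain ⟨s, hs⟩ := L'.exists_rightInverse_of_surjective hsurj
      obtain ⟨σ, hσ⟩ := LinearMap.exists_extend (Φ.subtype.comp s)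
      refine ⟨σ, fun φ hφ => ?_⟩
      have h1 : σ φ = s ⟨φ, hφ⟩ := LinearMap.congr_fun hσ ⟨φ, hφ⟩
      rw [h1]
      refine ⟨(s ⟨φ, hφ⟩).2, ?_⟩
      have h2 := LinearMap.congr_fun hs ⟨φ, hφ⟩
      exact congrArg Subtype.val h2
    intro y hy
    apply Submodule.le_topologicalClosure
    refine ⟨op (sc ι H σ) y, ?_, ?_⟩
    · intro p g
      have h1 : (fun i => op (sc ι H σ) y ((p, i), g)) = σ (fun i => y ((p, i), g)) := by
        funext i
        rw [op_sc]
      rw [h1]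
      exact (hσ _ (hy p g)).1
    · ext ⟨⟨p, n⟩, g⟩
      have h1 : (fun i => op (sc ι H σ) y ((p, i), g)) = σ (fun i => y ((p, i), g)) := by
        funext i
        rw [op_sc]
      show op (sc ι H L) (op (sc ι H σ) y) ((p, n), g) = _
      rw [op_sc, h1, (hσ _ (hy p g)).2]

theorem coef_sc {R : Subring ℂ} (L : (μ → ℂ) →ₗ[ℂ] (ν → ℂ))
    (hL : ∀ φ : μ → ℂ, (∀ i, φ i ∈ R) → ∀ n, L φ n ∈ R) : Coef R (sc ι H L) := by
  classical
  intro a p g
  unfold sc
  split_ifs
  · refine coef_single _ _ (hL _ (fun i => ?_) _) _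
    rw [Pi.single_apply]
    split_ifs
    · exact R.one_mem
    · exact R.zero_mem
  · exact R.zero_mem

end

/-! ### linear algebra -/

/-- equations for a proper subspace -/
theorem relation {μ : Type} [Fintype μ] [DecidableEq μ] (Φ : Submodule ℂ (μ → ℂ)) (h : Φ ≠ ⊤) :
    ∃ (i : μ) (I : Finset μ) (c : μ → ℂ), i ∉ I ∧ (∀ φ ∈ Φ, φ i = ∑ j ∈ I, c j * φ j) ∧
      ∀ j ∈ I, ∃ φ ∈ Φ, φ j = 1 ∧ φ i = c j ∧ ∀ j' ∈ I, j' ≠ j → φ j' = 0 := by
  classical
  let onto : Finset μ → Prop := fun I => ∀ g : μ → ℂ, ∃ φ ∈ Φ, ∀ j ∈ I, φ j = g j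
  have hex : ∃ n, ∃ I : Finset μ, I.card = n ∧ ¬ onto I := by
    refine ⟨_, Finset.univ, rfl, fun hon => h ?_⟩
    rw [eq_top_iff]
    intro g _
    obtain ⟨φ, hφ, hg⟩ := hon g
    have : φ = g := funext fun j => hg j (Finset.mem_univ _)
    rwa [← this]
  obtain ⟨I0, hI0, hno⟩ := Nat.find_spec hex
  have hmin : ∀ I : Finset μ, I.card < I0.card → onto I := by
    intro I hI
    by_contra hcon
    rw [hI0] at hI
    exact Nat.find_min hex hI ⟨I, rfl, hcon⟩
  have hne : I0.Nonempty := by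
    rw [Finset.nonempty_iff_ne_empty]
    rintro rfl
    exact hno fun g => ⟨0, Φ.zero_mem, by simp⟩
  obtain ⟨i, hi⟩ := hne
  set I := I0.erase i with hI
  have honI : onto I := hmin I (Finset.card_erase_lt_of_mem hi)
  have h1 : ∀ j, ∃ φ ∈ Φ, ∀ j' ∈ I, φ j' = (Pi.single j 1 : μ → ℂ) j' := fun j =>
    honI (Pi.single j 1)
  choose F hF hF1 using h1
  refine ⟨i, I, fun j => F j i, Finset.notMem_erase i I0, ?_, ?_⟩
  · intro φ hφ
    set ψ := φ - ∑ j ∈ I, φ j • F j with hψ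
    have hψm : ψ ∈ Φ := Φ.sub_mem hφ (Φ.sum_mem fun j _ => Φ.smul_mem _ (hF j))
    have hψI : ∀ j' ∈ I, ψ j' = 0 := by
      intro j' hj'
      rw [hψ, Pi.sub_apply, Finset.sum_apply, Finset.sum_eq_single j']
      · rw [Pi.smul_apply, hF1 j' j' hj', Pi.single_eq_same, smul_eq_mul, mul_one, sub_self]
      · intro j _ hj
        rw [Pi.smul_apply, hF1 j j' hj', Pi.single_eq_of_ne hj.symm, smul_zero]
      · intro hcon
        exact absurd hj' hcon
    have hψi : ψ i = 0 := by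
      by_contra hcon
      apply hno
      intro g
      obtain ⟨φ', hφ', hg'⟩ := honI g
      refine ⟨φ' + ((g i - φ' i) / ψ i) • ψ, Φ.add_mem hφ' (Φ.smul_mem _ hψm), ?_⟩
      intro j hj
      by_cases hji : j = i
      · rw [hji, Pi.add_apply, Pi.smul_apply, smul_eq_mul, div_mul_cancel₀ _ hcon]
        ring
      · have hjI : j ∈ I := Finset.mem_erase.2 ⟨hji, hj⟩
        rw [Pi.add_apply, Pi.smul_apply, hψI j hjI, smul_zero, add_zero, hg' j hjI]
    rw [hψ, Pi.sub_apply, Finset.sum_apply, sub_eq_zero] at hψi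
    rw [hψi]
    refine Finset.sum_congr rfl fun j _ => ?_
    rw [Pi.smul_apply, smul_eq_mul, mul_comm]
  · intro j hj
    refine ⟨F j, hF j, ?_, rfl, ?_⟩
    · rw [hF1 j j hj, Pi.single_eq_same]
    · intro j' hj' hne
      rw [hF1 j j' hj', Pi.single_eq_of_ne hne]

/-! ### numbers which are defined over `R` -/

/-- the vector `(1, c)` -/
noncomputable def one_c (c : ℂ) : Fin 2 → ℂ := ![1, c]

theorem mem_span_one_c (c : ℂ) (φ : Fin 2 → ℂ) :
    φ ∈ Submodule.span ℂ {one_c c} ↔ φ 1 = c * φ 0 := by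
  rw [Submodule.mem_span_singleton]
  constructor
  · rintro ⟨a, rfl⟩
    simp [one_c, mul_comm]
  · intro h
    refine ⟨φ 0, ?_⟩
    funext i
    fin_cases i
    · simp [one_c]
    · simp [one_c, h, mul_comm]

/-- the graph of the multiplication by `c` is defined over `R` -/
def Rp (R : Subring ℂ) (H : Type) [Group H] (c : ℂ) : Prop :=
  DF R (pt (Submodule.span ℂ {one_c c}) : Submodule ℂ (L2 ((Unit × Fin 2) × H)))

section

variable {H : Type} [Group H] {R : Subring ℂ}

theorem pt_inf {ι μ : Type} (Φ Ψ : Submodule ℂ (μ → ℂ)) :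
    (pt Φ ⊓ pt Ψ : Submodule ℂ (L2 ((ι × μ) × H))) = pt (Φ ⊓ Ψ) := by
  ext x
  constructor
  · rintro ⟨h1, h2⟩ p g
    exact ⟨h1 p g, h2 p g⟩
  · intro h
    exact ⟨fun p g => (h p g).1, fun p g => (h p g).2⟩

theorem df_pt_finset {μ : Type} [Fintype μ] (I : Finset μ) (Φ : Submodule ℂ (μ → ℂ))
    (h : DF R (pt Φ : Submodule ℂ (L2 ((Unit × μ) × H)))) :
    DF R (pt (Φ ⊓ ⨅ j ∈ I, LinearMap.ker (LinearMap.proj j : (μ → ℂ) →ₗ[ℂ] ℂ)) :
      Submodule ℂ (L2 ((Unit × μ) × H))) := by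
  classical
  induction I using Finset.induction_on with
  | empty => simpa using h
  | insert a s _ ih =>
    have h1 : DF R (kerA (sel H (fun _ : Unit => ((), a))) :
        Submodule ℂ (L2 ((Unit × μ) × H))) := df_ker (coef_sel R _)
    have h2 := ih.inf h1
    have e : (pt (Φ ⊓ ⨅ j ∈ s, LinearMap.ker (LinearMap.proj j : (μ → ℂ) →ₗ[ℂ] ℂ)) ⊓
        kerA (sel H (fun _ : Unit => ((), a))) : Submodule ℂ (L2 ((Unit × μ) × H))) =
        pt (Φ ⊓ ⨅ j ∈ insert a s, LinearMap.ker (LinearMap.proj j : (μ → ℂ) →ₗ[ℂ] ℂ)) := by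
      rw [Finset.iInf_insert]
      ext x
      rw [Submodule.mem_inf, mem_kerA]
      constructor
      · rintro ⟨h3, h4⟩ p g
        refine ⟨(h3 p g).1, ?_, (h3 p g).2⟩
        have := h4 () g
        rw [act_sel] at this
        exact this
      · intro h3
        refine ⟨fun p g => ⟨(h3 p g).1, (h3 p g).2.2⟩, ?_⟩
        rintro ⟨⟩ g
        rw [act_sel]
        exact (h3 () g).2.1
    rwa [e] at h2

/-- the coefficients of the equations are defined over `R` -/
theorem rp_of_relation {μ : Type} [Fintype μ] [DecidableEq μ] (Φ : Submodule ℂ (μ → ℂ))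
    (h : DF R (pt Φ : Submodule ℂ (L2 ((Unit × μ) × H)))) (i : μ) (I : Finset μ) (c : μ → ℂ)
    (h1 : ∀ φ ∈ Φ, φ i = ∑ j ∈ I, c j * φ j) (j : μ) (hj : j ∈ I)
    (h2 : ∃ φ ∈ Φ, φ j = 1 ∧ φ i = c j ∧ ∀ j' ∈ I, j' ≠ j → φ j' = 0) : Rp R H (c j) := by
  let L : (μ → ℂ) →ₗ[ℂ] (Fin 2 → ℂ) := LinearMap.pi ![LinearMap.proj j, LinearMap.proj i]
  have hL0 : ∀ φ, L φ 0 = φ j := fun φ => rfl
  have hL1 : ∀ φ, L φ 1 = φ i := fun φ => rfl
  have h3 := df_pt_finset (I.erase j) Φ h
  set Ψ := Φ ⊓ ⨅ j' ∈ I.erase j, LinearMap.ker (LinearMap.proj j' : (μ → ℂ) →ₗ[ℂ] ℂ) with hΨ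
  have hmem : ∀ φ, φ ∈ Ψ ↔ φ ∈ Φ ∧ ∀ j' ∈ I, j' ≠ j → φ j' = 0 := by
    intro φ
    rw [hΨ, Submodule.mem_inf, Submodule.mem_iInf]
    refine and_congr_right fun _ => ?_
    constructor
    · intro h4 j' hj' hne
      have h5 := h4 j'
      rw [Submodule.mem_iInf] at h5
      exact h5 (Finset.mem_erase.2 ⟨hne, hj'⟩)
    · intro h4 j'
      rw [Submodule.mem_iInf]
      intro h5
      rw [Finset.mem_erase] at h5
      exact h4 j' h5.2 h5.1
  have hmap : Ψ.map L = Submodule.span ℂ {one_c (c j)} := by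
    apply le_antisymm
    · rintro _ ⟨φ, hφ, rfl⟩
      rw [mem_span_one_c, hL0, hL1]
      have h4 := (hmem φ).1 hφ
      rw [h1 φ h4.1, Finset.sum_eq_single j]
      · intro j' hj' hne
        rw [h4.2 j' hj' hne, mul_zero]
      · intro hcon
        exact absurd hj hcon
    · rw [Submodule.span_le, Set.singleton_subset_iff]
      obtain ⟨φ, hφ, ha, hb, hc⟩ := h2
      refine ⟨φ, (hmem φ).2 ⟨hφ, hc⟩, ?_⟩
      funext n
      fin_cases n
      · show φ j = one_c (c j) 0
        rw [ha]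
        rfl
      · show φ i = one_c (c j) 1
        rw [hb]
        rfl
  unfold Rp
  rw [← hmap, ← image_pt]
  apply h3.image
  apply coef_sc
  intro φ hφ n
  fin_cases n
  · exact hφ j
  · exact hφ i

/-- geometric windows for a number which is defined over `R` -/
theorem df_geo {ι : Type} [Fintype ι] {c : ℂ} (hc : Rp R H c) (D : ℕ) :
    DF R (pt (Submodule.span ℂ {geo c D}) : Submodule ℂ (L2 ((ι × Fin (D + 1)) × H))) := by
  classical
  have h1 := df_finset (R := R) (Finset.univ : Finset (ι × Fin D))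
    (fun a => ((pt (Submodule.span ℂ {one_c c}) : Submodule ℂ (L2 ((Unit × Fin 2) × H))).comap
      (op (sel H (fun k : Unit × Fin 2 =>
        ((a.1, if k.2 = 0 then a.2.castSucc else a.2.succ) : ι × Fin (D + 1)))) :
        L2 ((ι × Fin (D + 1)) × H) →ₗ[ℂ] L2 ((Unit × Fin 2) × H))))
    (fun a _ => DF.comap hc (coef_sel R _))
  have e : (⨅ a ∈ (Finset.univ : Finset (ι × Fin D)),
      ((pt (Submodule.span ℂ {one_c c}) : Submodule ℂ (L2 ((Unit × Fin 2) × H))).comap
      (op (sel H (fun k : Unit × Fin 2 =>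
        ((a.1, if k.2 = 0 then a.2.castSucc else a.2.succ) : ι × Fin (D + 1)))) :
        L2 ((ι × Fin (D + 1)) × H) →ₗ[ℂ] L2 ((Unit × Fin 2) × H)))) =
      pt (Submodule.span ℂ {geo c D}) := by
    ext x
    rw [Submodule.mem_iInf]
    constructor
    · intro h p g
      rw [span_geo_iff]
      intro i
      have h2 := h (p, i)
      rw [Submodule.mem_iInf] at h2
      have h3 := h2 (Finset.mem_univ _) () g
      rw [mem_span_one_c] at h3
      simp only [ContinuousLinearMap.coe_coe, op_sel] at h3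
      simpa using h3
    · rintro h ⟨p, i⟩
      rw [Submodule.mem_iInf]
      intro _
      rintro ⟨⟩ g
      rw [mem_span_one_c]
      simp only [ContinuousLinearMap.coe_coe, op_sel]
      have h2 := (span_geo_iff c D _).1 (h p g) i
      simpa using h2
  rwa [e] at h1

end

end Pool.Agent.V5helper38.BP
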